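import Pool.Agent.H98Q.Four

namespace H98Q

variable {b M N A σ : ℤ}

theorem R.bounds4 (h : R b M N A σ) :
    M * b ^ 2 ≤ 1732 * (Int.gcd A (M * b ^ 2 - 1) : ℤ) ^ 6 ∧
    M * b ^ 2 ≤ 1732 * (Int.gcd A (M * b ^ 2 + 1) : ℤ) ^ 6 := by
  have hf := h.fac
  have hA := h.hA
  have h1 : 1 ≤ (Int.gcd A (M * b ^ 2 - 1) : ℤ) := by
    have := Int.gcd_pos_of_ne_zero_left (M * b ^ 2 - 1) (show A ≠ 0 by omega)
    omega
  have h2 : 1 ≤ (Int.gcd A (M * b ^ 2 + 1) : ℤ) := by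
    have := Int.gcd_pos_of_ne_zero_left (M * b ^ 2 + 1) (show A ≠ 0 by omega)
    omega
  have s1 := h.size4 (q := (Int.gcd A (M * b ^ 2 + 1) : ℤ))
    (T := (Int.gcd A (M * b ^ 2 - 1) : ℤ)) (δ := -1) (Or.inr rfl) h2 h1
    (by rw [mul_comm]; exact hf) (by rw [sub_neg_eq_add]; exact Int.gcd_dvd_right ..)
  have s2 := h.size4 (q := (Int.gcd A (M * b ^ 2 - 1) : ℤ))
    (T := (Int.gcd A (M * b ^ 2 + 1) : ℤ)) (δ := 1) (Or.inl rfl) h1 h2 hf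
    (Int.gcd_dvd_right ..)
  exact ⟨s1.2, s2.2⟩

end H98Q
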