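import Pool.Agent.H98Q.Core

namespace H98Q

/-- the case of positive x -/
structure P (b M N : ℤ) : Prop where
  hb : 1 ≤ b
  hM : 1 ≤ M
  hN : 1 ≤ N
  bM : IsCoprime b M
  bN : IsCoprime b N
  e : (M * N - b) ^ 3 = M * b ^ 5 - N

/-- the case of negative x -/
structure Q (b M N : ℤ) : Prop where
  hb : 1 ≤ b
  hM : 1 ≤ M
  hN : 1 ≤ N
  bM : IsCoprime b M
  bN : IsCoprime b N
  e : (M * N + b) ^ 3 = M * b ^ 5 + N

variable {b M N : ℤ}

theorem P.K (h : P b M N) : ∃ K : ℤ, 1 ≤ K ∧ N * K = M * b ^ 2 + 1 ∧ b ∣ K ^ 2 + M ^ 3 := by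
  obtain ⟨hb, hM, hN, bM, bN, e⟩ := h
  have h1 : N ∣ b ^ 3 * (M * b ^ 2 + 1) :=
    ⟨M * (M ^ 2 * N ^ 2) - 3 * M ^ 2 * N * b + 3 * M * b ^ 2 + 1, by linear_combination -e⟩
  have h2 : N ∣ M * b ^ 2 + 1 := (IsCoprime.pow_right bN.symm).dvd_of_dvd_mul_left h1
  obtain ⟨K, hK⟩ := h2
  have hpos : 0 < N * K := by rw [← hK]; positivity
  have hK1 : 1 ≤ K := by
    have : 0 < K := by
      by_contra hcon
      push Not at hcon
      nlinarith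
    omega
  refine ⟨K, hK1, hK.symm, ?_⟩
  have e2 : (M * (N * K) - b * K) ^ 3 = M * b ^ 5 * K ^ 3 - K ^ 2 * (N * K) := by
    linear_combination K ^ 3 * e
  rw [← hK] at e2
  exact ⟨-(M ^ 4 * b * ((M * b ^ 2 + 1) ^ 2 + (M * b ^ 2 + 1) + 1)
    - 3 * M ^ 2 * (M * b ^ 2 + 1) ^ 2 * K + 3 * M * (M * b ^ 2 + 1) * b * K ^ 2
    - b ^ 2 * K ^ 3 - M * b ^ 4 * K ^ 3 + K ^ 2 * M * b), by linear_combination e2⟩

theorem Q.K (h : Q b M N) : ∃ K : ℤ, 1 ≤ K ∧ N * K = M * b ^ 2 - 1 ∧ b ∣ K ^ 2 - M ^ 3 := by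
  obtain ⟨hb, hM, hN, bM, bN, e⟩ := h
  have h1 : N ∣ b ^ 3 * (M * b ^ 2 - 1) :=
    ⟨M * (M ^ 2 * N ^ 2) + 3 * M ^ 2 * N * b + 3 * M * b ^ 2 - 1, by linear_combination -e⟩
  have h2 : N ∣ M * b ^ 2 - 1 := (IsCoprime.pow_right bN.symm).dvd_of_dvd_mul_left h1
  obtain ⟨K, hK⟩ := h2
  have hb2 : 1 ≤ b ^ 2 := one_le_pow₀ hb
  have hMb : 1 ≤ M * b ^ 2 := by nlinarith
  have hne : M * b ^ 2 ≠ 1 := by
    intro h1
    have hM1 : M = 1 := by nlinarith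
    have hb1 : b = 1 := by
      rw [hM1, one_mul] at h1
      nlinarith
    subst hM1 hb1
    nlinarith [sq_nonneg N, mul_pos (show (0:ℤ) < N by omega) (show (0:ℤ) < N by omega)]
  have hpos : 0 < N * K := by rw [← hK]; omega
  have hK1 : 1 ≤ K := by
    have : 0 < K := by
      by_contra hcon
      push Not at hcon
      nlinarith
    omega
  refine ⟨K, hK1, hK.symm, ?_⟩
  have e2 : (M * (N * K) + b * K) ^ 3 = M * b ^ 5 * K ^ 3 + K ^ 2 * (N * K) := by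
    linear_combination K ^ 3 * e
  rw [← hK] at e2
  exact ⟨-(M ^ 4 * b * ((M * b ^ 2 - 1) ^ 2 - (M * b ^ 2 - 1) + 1)
    + 3 * M ^ 2 * (M * b ^ 2 - 1) ^ 2 * K + 3 * M * (M * b ^ 2 - 1) * b * K ^ 2
    + b ^ 2 * K ^ 3 - M * b ^ 4 * K ^ 3 - K ^ 2 * M * b), by linear_combination e2⟩

theorem P.low (h : P b M N) : b ^ 5 ≤ 2 * (M ^ 2 * N ^ 3) := by
  obtain ⟨hb, hM, hN, bM, bN, e⟩ := h
  have hN3 : N ≤ N ^ 3 := by
    have : 1 ≤ N ^ 2 := one_le_pow₀ hN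
    nlinarith
  have hM2 : 1 ≤ M ^ 2 := one_le_pow₀ hM
  have hN3' : 0 < N ^ 3 := by positivity
  have h1 : N ≤ M ^ 2 * N ^ 3 := by nlinarith
  have hb5 : 0 < b ^ 5 := by positivity
  rcases le_or_gt (M * N) b with h2 | h2
  · have h3 : (M * N - b) ^ 3 ≤ 0 := by
      have : M * N - b ≤ 0 := by linarith
      exact Odd.pow_nonpos (by decide) this
    have h4 : b ^ 5 ≤ M * b ^ 5 := by nlinarith
    nlinarith
  · have h3 : (M * N - b) ^ 3 ≤ (M * N) ^ 3 := pow_le_pow_left₀ (by linarith) (by linarith) 3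
    have h4 : N ≤ M * (M ^ 2 * N ^ 3) := by nlinarith
    have h5 : M * b ^ 5 ≤ M * (2 * (M ^ 2 * N ^ 3)) := by nlinarith
    exact le_of_mul_le_mul_left h5 (by omega)

theorem Q.low (h : Q b M N) : b ^ 5 ≤ 8 * (M ^ 2 * N ^ 3) := by
  obtain ⟨hb, hM, hN, bM, bN, e⟩ := h
  rcases le_or_gt b (M * N) with h2 | h2
  · have h3 : (M * N + b) ^ 3 ≤ (2 * (M * N)) ^ 3 := pow_le_pow_left₀ (by positivity) (by linarith) 3
    have h5 : M * b ^ 5 ≤ M * (8 * (M ^ 2 * N ^ 3)) := by nlinarith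
    exact le_of_mul_le_mul_left h5 (by omega)
  · exfalso
    have h3 : (M * N + b) ^ 3 ≤ (2 * b) ^ 3 := pow_le_pow_left₀ (by positivity) (by linarith) 3
    have h4 : M * b ^ 5 < 8 * b ^ 3 := by nlinarith
    have h5 : b ^ 3 * (M * b ^ 2) < b ^ 3 * 8 := by nlinarith
    have h6 : M * b ^ 2 < 8 := lt_of_mul_lt_mul_left h5 (by positivity)
    have h7 : b ^ 2 < 8 := by nlinarith [sq_nonneg b]
    have h8 : b ≤ 2 := by nlinarith
    have h9 : 1 ≤ M * N := by nlinarith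
    have h10 : b = 2 := by omega
    subst h10
    have hM1 : M = 1 := by omega
    subst hM1
    have hN1 : N = 1 := by omega
    subst hN1
    norm_num at e

theorem P.K3 {K : ℤ} (h : P b M N) (hK : 1 ≤ K) (hNK : N * K = M * b ^ 2 + 1) :
    K ^ 3 ≤ 16 * M ^ 5 * b := by
  have hl := h.low
  obtain ⟨hb, hM, hN, bM, bN, e⟩ := h
  have h1 : (N * K) ^ 3 ≤ (2 * (M * b ^ 2)) ^ 3 := by
    apply pow_le_pow_left₀ (by positivity)
    have : 1 ≤ b ^ 2 := one_le_pow₀ hb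
    nlinarith
  have h2 : K ^ 3 * b ^ 5 ≤ (16 * M ^ 5 * b) * b ^ 5 := by
    calc K ^ 3 * b ^ 5 ≤ K ^ 3 * (2 * (M ^ 2 * N ^ 3)) := by
          apply mul_le_mul_of_nonneg_left hl; positivity
      _ = 2 * M ^ 2 * (N * K) ^ 3 := by ring
      _ ≤ 2 * M ^ 2 * (2 * (M * b ^ 2)) ^ 3 := by
          apply mul_le_mul_of_nonneg_left h1; positivity
      _ = (16 * M ^ 5 * b) * b ^ 5 := by ring
  exact le_of_mul_le_mul_right h2 (by positivity)

theorem Q.K3 {K : ℤ} (h : Q b M N) (hK : 1 ≤ K) (hNK : N * K = M * b ^ 2 - 1) :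
    K ^ 3 ≤ 16 * M ^ 5 * b := by
  have hl := h.low
  obtain ⟨hb, hM, hN, bM, bN, e⟩ := h
  have h1 : (N * K) ^ 3 ≤ (M * b ^ 2) ^ 3 := by
    apply pow_le_pow_left₀ (by positivity)
    omega
  have h2 : K ^ 3 * b ^ 5 ≤ (16 * M ^ 5 * b) * b ^ 5 := by
    calc K ^ 3 * b ^ 5 ≤ K ^ 3 * (8 * (M ^ 2 * N ^ 3)) := by
          apply mul_le_mul_of_nonneg_left hl; positivity
      _ = 8 * M ^ 2 * (N * K) ^ 3 := by ring
      _ ≤ 8 * M ^ 2 * (M * b ^ 2) ^ 3 := by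
          apply mul_le_mul_of_nonneg_left h1; positivity
      _ ≤ 16 * M ^ 2 * (M * b ^ 2) ^ 3 := by
          have : 0 ≤ M ^ 2 * (M * b ^ 2) ^ 3 := by positivity
          nlinarith
      _ = (16 * M ^ 5 * b) * b ^ 5 := by ring
  exact le_of_mul_le_mul_right h2 (by positivity)

theorem P.bK {K : ℤ} (h : P b M N) (hK : 1 ≤ K) (hd : b ∣ K ^ 2 + M ^ 3) :
    b ≤ K ^ 2 + M ^ 3 := by
  obtain ⟨hb, hM, hN, bM, bN, e⟩ := h
  exact Int.le_of_dvd (by positivity) hd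

theorem Q.bK {K : ℤ} (h : Q b M N) (hK : 1 ≤ K) (hNK : N * K = M * b ^ 2 - 1)
    (hd : b ∣ K ^ 2 - M ^ 3) : b ≤ K ^ 2 + M ^ 3 := by
  obtain ⟨hb, hM, hN, bM, bN, e⟩ := h
  by_cases h0 : K ^ 2 - M ^ 3 = 0
  · exfalso
    have hc : IsCoprime M K := ⟨b ^ 2, -N, by linear_combination -hNK⟩
    have h1 : M ∣ K ^ 2 := ⟨M ^ 2, by linear_combination h0⟩
    have h2 : IsUnit M := (IsCoprime.pow_right hc).isUnit_of_dvd' dvd_rfl h1
    have hM1 : M = 1 := by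
      rcases Int.isUnit_iff.mp h2 with h | h
      · exact h
      · omega
    subst hM1
    have hK1 : K = 1 := by nlinarith
    subst hK1
    have hN' : N = b ^ 2 - 1 := by linarith
    have hb2 : 2 ≤ b := by
      by_contra hcon
      have : b = 1 := by omega
      subst this
      norm_num at hN'
      omega
    have h3 : (b ^ 2) ^ 3 ≤ (1 * N + b) ^ 3 := by
      apply pow_le_pow_left₀ (by positivity)
      rw [hN']; linarith
    rw [e, hN'] at h3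
    have h4 : b ^ 2 ≤ b ^ 5 := pow_le_pow_right₀ (by omega) (by norm_num)
    have h5 : 0 < b ^ 5 := by positivity
    nlinarith
  · have h1 : b ≤ |K ^ 2 - M ^ 3| := by
      apply Int.le_of_dvd (abs_pos.mpr h0)
      exact (dvd_abs _ _).mpr hd
    have h2 : |K ^ 2 - M ^ 3| ≤ K ^ 2 + M ^ 3 := by
      have hK2 : 0 ≤ K ^ 2 := by positivity
      have hM3 : 0 ≤ M ^ 3 := by positivity
      rw [abs_le]
      constructor <;> linarith
    linarith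

theorem bnd1 {b M K : ℤ} (hb : 1 ≤ b) (hM : 1 ≤ M) (hK : 1 ≤ K) (h1 : b ≤ K ^ 2 + M ^ 3)
    (h2 : K ^ 3 ≤ 16 * M ^ 5 * b) : b ≤ 2048 * M ^ 10 := by
  by_contra hcon
  push Not at hcon
  have h3 : M ^ 3 ≤ M ^ 10 := pow_le_pow_right₀ (by omega) (by norm_num)
  have hM3 : 0 < M ^ 3 := by positivity
  have h4 : b ≤ 2 * K ^ 2 := by nlinarith
  have h5 : b ^ 3 ≤ (2 * K ^ 2) ^ 3 := pow_le_pow_left₀ (by omega) h4 3
  have h6 : (K ^ 3) ^ 2 ≤ (16 * M ^ 5 * b) ^ 2 := pow_le_pow_left₀ (by positivity) h2 2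
  have h7 : b ^ 2 * b ≤ b ^ 2 * (2048 * M ^ 10) := by nlinarith
  have h8 : b ≤ 2048 * M ^ 10 := le_of_mul_le_mul_left h7 (by positivity)
  linarith

end H98Q
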