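import Pool.Agent.H98Q.NBound

namespace H98Q

theorem chkP : ∀ b : Fin 258, ∀ K : Fin 17, 0 < (b : ℕ) → 0 < (K : ℕ) →
    (K : ℕ) ∣ (b : ℕ) ^ 2 + 1 →
    ((((((b : ℕ) ^ 2 + 1) / (K : ℕ) : ℕ) : ℤ) - (b : ℕ)) ^ 3
      = ((b : ℕ) : ℤ) ^ 5 - ((((b : ℕ) ^ 2 + 1) / (K : ℕ) : ℕ) : ℤ)) →
    (b : ℕ) = 1 ∨ (b : ℕ) = 2 := by
  decide +kernel

theorem chkQ : ∀ b : Fin 258, ∀ K : Fin 17, 0 < (b : ℕ) → 0 < (K : ℕ) →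
    (K : ℕ) ∣ (b : ℕ) ^ 2 - 1 →
    ((((((b : ℕ) ^ 2 - 1) / (K : ℕ) : ℕ) : ℤ) + (b : ℕ)) ^ 3
      = ((b : ℕ) : ℤ) ^ 5 + ((((b : ℕ) ^ 2 - 1) / (K : ℕ) : ℕ) : ℤ)) →
    (b : ℕ) = 1 := by
  decide +kernel

end H98Q
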