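import Pool.Agent.H98Q.Bounds

namespace H98Q

variable {b M N A σ : ℤ}

theorem R.cof (h : R b M N A σ) :
    (∃ v, M * b ^ 2 - 1 = (Int.gcd A (M * b ^ 2 - 1) : ℤ) * v ∧
      IsCoprime (Int.gcd A (M * b ^ 2 - 1) : ℤ) v) ∧
    (∃ v, M * b ^ 2 + 1 = (Int.gcd A (M * b ^ 2 + 1) : ℤ) * v ∧
      IsCoprime (Int.gcd A (M * b ^ 2 + 1) : ℤ) v) := by
  have hrel := h.rel
  have hA := h.hA
  have hf := h.fac
  have h1 : A ∣ (M * b ^ 2 - 1) * (M * b ^ 2 + 1) := by
    have : A ∣ b * ((M * b ^ 2 - 1) * (M * b ^ 2 + 1)) := ⟨_, hrel⟩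
    exact h.bA.symm.dvd_of_dvd_mul_left this
  obtain ⟨w, hw⟩ := h1
  have hbw : b * w = A ^ 2 * M + σ := by
    have : A * (b * w) = A * (A ^ 2 * M + σ) := by
      rw [← hrel, hw]; ring
    exact mul_left_cancel₀ (by omega) this
  have hwA : IsCoprime w A := by
    rcases h.hσ with hs | hs <;> subst hs
    · exact ⟨b, -(A * M), by linear_combination hbw⟩
    · exact ⟨-b, A * M, by linear_combination -hbw⟩
  obtain ⟨v, hv⟩ : (Int.gcd A (M * b ^ 2 - 1) : ℤ) ∣ M * b ^ 2 - 1 := Int.gcd_dvd_right ..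
  obtain ⟨v', hv'⟩ : (Int.gcd A (M * b ^ 2 + 1) : ℤ) ∣ M * b ^ 2 + 1 := Int.gcd_dvd_right ..
  have hgA : (Int.gcd A (M * b ^ 2 - 1) : ℤ) ∣ A := Int.gcd_dvd_left ..
  have hgA' : (Int.gcd A (M * b ^ 2 + 1) : ℤ) ∣ A := Int.gcd_dvd_left ..
  generalize (Int.gcd A (M * b ^ 2 - 1) : ℤ) = g at *
  generalize (Int.gcd A (M * b ^ 2 + 1) : ℤ) = g' at *
  have hvv : w = v * v' := by
    have h2 : A * w = A * (v * v') := by
      rw [← hw, hv, hv', ← hf]; ring
    exact mul_left_cancel₀ (by omega) h2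
  rw [hvv] at hwA
  have k1 : IsCoprime v A := hwA.of_mul_left_left
  have k2 : IsCoprime v' A := hwA.of_mul_left_right
  exact ⟨⟨v, hv, (k1.symm).of_isCoprime_of_dvd_left hgA⟩,
    ⟨v', hv', (k2.symm).of_isCoprime_of_dvd_left hgA'⟩⟩

theorem R.noBig (h : R b M N A σ) (hM2 : 2 ≤ M) (hX : M * b ^ 2 - 1 ≤ A) : False := by
  obtain ⟨hb, hM, hN, hA, hσ, bM, bA, r, e⟩ := h
  have hNA : N ≤ A + b := by
    have h1 : N ≤ M * N := by nlinarith
    rcases hσ with hs | hs <;> subst hs <;> linarith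
  have h2 : A ^ 3 ≤ M * b ^ 5 + A + b := by
    rcases hσ with hs | hs <;> subst hs <;> linarith
  obtain ⟨X, hXd⟩ : ∃ X, X = M * b ^ 2 := ⟨_, rfl⟩
  have hb4 : 4 ≤ b ^ 2 := by nlinarith
  have hX8 : 8 ≤ X := by rw [hXd]; nlinarith
  have hbX : b ≤ X := by rw [hXd]; nlinarith
  have h3 : 8 * b ^ 3 ≤ X ^ 2 := by
    have k1 : 2 * b ^ 2 ≤ X := by rw [hXd]; nlinarith
    have k2 : (2 * b ^ 2) ^ 2 ≤ X ^ 2 := pow_le_pow_left₀ (by positivity) k1 2
    have k3 : 0 < b ^ 3 := by positivity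
    nlinarith
  have h4 : 8 * (M * b ^ 5) ≤ X ^ 3 := by
    have k1 : M * b ^ 5 = X * b ^ 3 := by rw [hXd]; ring
    rw [k1]
    nlinarith
  have hX' : X - 1 ≤ A := by rw [hXd]; exact hX
  have h5 : (X - 1) ^ 3 - (X - 1) ≤ A ^ 3 - A := by
    obtain ⟨d, hd⟩ : ∃ d, A = X - 1 + d := ⟨A - (X - 1), by ring⟩
    have hd0 : 0 ≤ d := by linarith
    rw [hd]
    have k1 : 0 ≤ d * ((X - 1) ^ 2 - 1) := by
      apply mul_nonneg hd0
      nlinarith
    have k2 : 0 ≤ d ^ 2 * (X - 1) := by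
      apply mul_nonneg (by positivity)
      linarith
    have k3 : 0 ≤ d ^ 3 := by positivity
    nlinarith
  have h6 : 0 < X * (7 * X ^ 2 - 24 * X + 8) := by
    apply mul_pos (by linarith)
    nlinarith
  nlinarith

theorem P.xpm {x : ℤ} {p k : ℕ} (h : P b M N) (hp : p.Prime) (hx : x = b ^ 2 * M)
    (hpk : (x - 1).natAbs = p ^ k ∨ (x + 1).natAbs = p ^ k) : b = 1 ∨ M = 1 := by
  by_contra hcon
  push Not at hcon
  have hb := h.hb
  have hM := h.hM
  have hR := h.toR (by omega)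
  have hA := hR.hA
  obtain ⟨⟨v, hv, hcv⟩, ⟨v', hv', hcv'⟩⟩ := hR.cof
  have hMb : 2 ≤ M * b ^ 2 := by
    have hb2 : 2 ≤ b := by omega
    have hb4 : 4 ≤ b ^ 2 := by nlinarith
    nlinarith
  have hbd := hR.bounds
  have hg1 : 1 ≤ (Int.gcd (M * N - b) (M * b ^ 2 - 1) : ℤ) := by
    have := Int.gcd_pos_of_ne_zero_left (M * b ^ 2 - 1) (show M * N - b ≠ 0 by omega)
    omega
  have hg2 : 1 ≤ (Int.gcd (M * N - b) (M * b ^ 2 + 1) : ℤ) := by
    have := Int.gcd_pos_of_ne_zero_left (M * b ^ 2 + 1) (show M * N - b ≠ 0 by omega)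
    omega
  rcases hpk with h1 | h1
  · have hv0 : 0 ≤ v := by
      by_contra hc
      push Not at hc
      nlinarith
    rcases pp_int hp h1 hg1 hv0 (Or.inl (by rw [hx, ← hv]; ring)) hcv with h2 | h2
    · have h3 := hbd.1.2 (by exact_mod_cast h2)
      rcases h.small h3.1 h3.2 with h4 | h4
      · exact hcon.1 h4
      · exact hcon.2 h4
    · have h3 : (Int.gcd (M * N - b) (M * b ^ 2 - 1) : ℤ) ≤ M * N - b :=
        Int.le_of_dvd (by omega) (Int.gcd_dvd_left ..)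
      rw [h2, mul_one] at hv
      exact hR.noBig (by omega) (by linarith)
  · have hv0 : 0 ≤ v' := by
      by_contra hc
      push Not at hc
      nlinarith
    rcases pp_int hp h1 hg2 hv0 (Or.inl (by rw [hx, ← hv']; ring)) hcv' with h2 | h2
    · have h3 := hbd.2.2 (by exact_mod_cast h2)
      rcases h.small h3.1 h3.2 with h4 | h4
      · exact hcon.1 h4
      · exact hcon.2 h4
    · have h3 : (Int.gcd (M * N - b) (M * b ^ 2 + 1) : ℤ) ≤ M * N - b :=
        Int.le_of_dvd (by omega) (Int.gcd_dvd_left ..)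
      rw [h2, mul_one] at hv'
      exact hR.noBig (by omega) (by linarith)

theorem Q.xpm {x : ℤ} {p k : ℕ} (h : Q b M N) (hp : p.Prime) (hx : x = -(b ^ 2 * M))
    (hpk : (x - 1).natAbs = p ^ k ∨ (x + 1).natAbs = p ^ k) : b = 1 ∨ M = 1 := by
  by_contra hcon
  push Not at hcon
  have hb := h.hb
  have hM := h.hM
  have hR := h.toR (by omega)
  have hA := hR.hA
  obtain ⟨⟨v, hv, hcv⟩, ⟨v', hv', hcv'⟩⟩ := hR.cof
  have hMb : 2 ≤ M * b ^ 2 := by
    have hb2 : 2 ≤ b := by omega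
    have hb4 : 4 ≤ b ^ 2 := by nlinarith
    nlinarith
  have hbd := hR.bounds
  have hg1 : 1 ≤ (Int.gcd (M * N + b) (M * b ^ 2 - 1) : ℤ) := by
    have := Int.gcd_pos_of_ne_zero_left (M * b ^ 2 - 1) (show M * N + b ≠ 0 by omega)
    omega
  have hg2 : 1 ≤ (Int.gcd (M * N + b) (M * b ^ 2 + 1) : ℤ) := by
    have := Int.gcd_pos_of_ne_zero_left (M * b ^ 2 + 1) (show M * N + b ≠ 0 by omega)
    omega
  rcases hpk with h1 | h1
  · have hv0 : 0 ≤ v' := by
      by_contra hc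
      push Not at hc
      nlinarith
    rcases pp_int hp h1 hg2 hv0 (Or.inr (by rw [hx, ← hv']; ring)) hcv' with h2 | h2
    · have h3 := hbd.2.2 (by exact_mod_cast h2)
      rcases h.small h3.1 h3.2 with h4 | h4
      · exact hcon.1 h4
      · exact hcon.2 h4
    · have h3 : (Int.gcd (M * N + b) (M * b ^ 2 + 1) : ℤ) ≤ M * N + b :=
        Int.le_of_dvd (by omega) (Int.gcd_dvd_left ..)
      rw [h2, mul_one] at hv'
      exact hR.noBig (by omega) (by linarith)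
  · have hv0 : 0 ≤ v := by
      by_contra hc
      push Not at hc
      nlinarith
    rcases pp_int hp h1 hg1 hv0 (Or.inr (by rw [hx, ← hv]; ring)) hcv with h2 | h2
    · have h3 := hbd.1.2 (by exact_mod_cast h2)
      rcases h.small h3.1 h3.2 with h4 | h4
      · exact hcon.1 h4
      · exact hcon.2 h4
    · have h3 : (Int.gcd (M * N + b) (M * b ^ 2 - 1) : ℤ) ≤ M * N + b :=
        Int.le_of_dvd (by omega) (Int.gcd_dvd_left ..)
      rw [h2, mul_one] at hv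
      exact hR.noBig (by omega) (by linarith)

end H98Q
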