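import Mathlib

namespace H98Q

theorem reduce (x y : ℤ) (hx : x ≠ 0) (h : x ^ 4 - x ^ 2 + x * y + y ^ 3 = 0) :
    ∃ b m n : ℤ, 0 < b ∧ m ≠ 0 ∧ IsCoprime b m ∧ IsCoprime b n ∧ x = b ^ 2 * m ∧
      y = (b + m * n) * (b * m) ∧ n + m * b ^ 5 + (b + m * n) ^ 3 = 0 ∧
      (Int.gcd x y : ℤ) = b * |m| := by
  have hg0 : 0 < Int.gcd x y := Int.gcd_pos_of_ne_zero_left _ hx
  obtain ⟨b, a, g, hb, hcop, hxg, hyg⟩ : ∃ b a g : ℤ, 0 < b ∧ IsCoprime b a ∧ x = b * g ∧
      y = a * g := by
    obtain ⟨x', y', hc, h1, h2⟩ := Int.exists_gcd_one hg0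
    have hx' : x' ≠ 0 := by
      rintro rfl
      exact hx (by rw [h1]; ring)
    have hc' : IsCoprime x' y' := Int.isCoprime_iff_gcd_eq_one.mpr hc
    rcases lt_or_gt_of_ne hx' with hneg | hpos
    · refine ⟨-x', -y', -(Int.gcd x y : ℤ), by omega, hc'.neg_neg, ?_, ?_⟩
      · rw [neg_mul_neg]; exact h1
      · rw [neg_mul_neg]; exact h2
    · exact ⟨x', y', _, hpos, hc', h1, h2⟩
  have hg : g ≠ 0 := by
    rintro rfl
    exact hx (by rw [hxg]; ring)
  have h3 : b ^ 4 * g ^ 2 - b ^ 2 + a * b + a ^ 3 * g = 0 := by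
    have h4 : g ^ 2 * (b ^ 4 * g ^ 2 - b ^ 2 + a * b + a ^ 3 * g) = 0 := by
      rw [hxg, hyg] at h
      linear_combination h
    rcases mul_eq_zero.mp h4 with h5 | h5
    · exact absurd (pow_eq_zero_iff (two_ne_zero)|>.mp h5) hg
    · exact h5
  have h6 : b ∣ a ^ 3 * g := ⟨b - a - b ^ 3 * g ^ 2, by linear_combination h3⟩
  have h7 : b ∣ g := (IsCoprime.pow_right hcop).dvd_of_dvd_mul_left h6
  obtain ⟨m, rfl⟩ := h7
  have hm : m ≠ 0 := by
    rintro rfl
    exact hg (by ring)
  have h8 : b ^ 5 * m ^ 2 - b + a + a ^ 3 * m = 0 := by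
    have h9 : b * (b ^ 5 * m ^ 2 - b + a + a ^ 3 * m) = 0 := by linear_combination h3
    rcases mul_eq_zero.mp h9 with h5 | h5
    · exact absurd h5 hb.ne'
    · exact h5
  have ha : a = b + m * (-(b ^ 5 * m + a ^ 3)) := by linear_combination h8
  obtain ⟨u, v, huv⟩ := hcop
  refine ⟨b, m, -(b ^ 5 * m + a ^ 3), hb, hm, ?_, ?_, ?_, ?_, ?_, ?_⟩
  · exact ⟨u + v * (1 - b ^ 4 * m ^ 2), -v * a ^ 3, by linear_combination huv - v * h8⟩
  · exact ⟨u + v, v * m, by linear_combination huv - v * h8⟩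
  · rw [hxg]; ring
  · rw [← ha, hyg]
  · rw [← ha]; ring
  · rw [hxg, hyg, Int.gcd_mul_right]
    have : Int.gcd b a = 1 := Int.isCoprime_iff_gcd_eq_one.mp ⟨u, v, huv⟩
    rw [this, one_mul, Int.natCast_natAbs, abs_mul, abs_of_pos hb]

theorem dvd_n {b m n : ℤ} (hbn : IsCoprime b n) (hE : n + m * b ^ 5 + (b + m * n) ^ 3 = 0) :
    n ∣ m * b ^ 2 + 1 := by
  have h1 : n ∣ b ^ 3 * (m * b ^ 2 + 1) :=
    ⟨-(1 + 3 * b ^ 2 * m + 3 * b * m ^ 2 * n + m ^ 3 * n ^ 2), by linear_combination hE⟩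
  exact (IsCoprime.pow_right hbn.symm).dvd_of_dvd_mul_left h1

theorem nonneg_case {b m n : ℤ} (hb : 0 < b) (hm : m ≠ 0) (hn : 0 ≤ n) (hbn : IsCoprime b n)
    (hE : n + m * b ^ 5 + (b + m * n) ^ 3 = 0) :
    b = 1 ∧ m = -1 ∧ (n = 0 ∨ n = 1 ∨ n = 2) := by
  have hd := dvd_n hbn hE
  rcases lt_or_gt_of_ne hm with hneg | hpos
  · obtain ⟨M, rfl⟩ : ∃ M, m = -M := ⟨-m, by ring⟩
    have hM : 1 ≤ M := by omega
    by_cases h1 : M * b ^ 2 = 1
    · have hM1 : M = 1 := by
        rcases Int.eq_one_or_neg_one_of_mul_eq_one h1 with h | h <;> omega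
      have hb1 : b = 1 := by
        rw [hM1, one_mul] at h1
        nlinarith
      subst hM1 hb1
      refine ⟨rfl, rfl, ?_⟩
      have h2 : n * (n - 1) * (n - 2) = 0 := by linear_combination -hE
      rcases mul_eq_zero.mp h2 with h3 | h3
      · rcases mul_eq_zero.mp h3 with h4 | h4
        · left; exact h4
        · right; left; omega
      · right; right; omega
    · exfalso
      have hMb : 1 ≤ M * b ^ 2 := by
        have : 0 < M * b ^ 2 := by positivity
        omega
      have hMb2 : 2 ≤ M * b ^ 2 := by omega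
      have hnle : n ≤ M * b ^ 2 - 1 := by
        have h5 : n ∣ M * b ^ 2 - 1 := by
          have := hd
          rw [show -M * b ^ 2 + 1 = -(M * b ^ 2 - 1) by ring] at this
          exact (dvd_neg.mp this)
        exact Int.le_of_dvd (by omega) h5
      have hb5 : M * b ^ 2 ≤ M * b ^ 5 := by
        have : b ^ 2 ≤ b ^ 5 := pow_le_pow_right₀ (by omega) (by norm_num)
        nlinarith
      rcases le_or_gt (M * n) b with h6 | h6
      · have h7 : (b + -M * n) ^ 3 ≤ b ^ 3 := by
          apply pow_le_pow_left₀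
          · nlinarith
          · nlinarith
        have h8 : n ≤ b := by nlinarith
        have h9 : M * b ^ 5 ≤ b + b ^ 3 := by nlinarith
        by_cases hb1 : b = 1
        · subst hb1
          norm_num at *
          have : M * n ≤ 1 := h6
          nlinarith
        · have hb2 : 2 ≤ b := by omega
          have h10 : b ^ 5 ≤ M * b ^ 5 := by
            have : 0 < b ^ 5 := by positivity
            nlinarith
          have h11 : 4 * b ^ 3 ≤ b ^ 5 := by
            have : 4 ≤ b ^ 2 := by nlinarith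
            have h3 : 0 < b ^ 3 := by positivity
            nlinarith
          have h12 : b ≤ b ^ 3 := by
            have : 1 ≤ b ^ 2 := by nlinarith
            nlinarith
          nlinarith
      · have h7 : (b + -M * n) ^ 3 < 0 := by
          have : b + -M * n < 0 := by linarith
          exact Odd.pow_neg (by decide) this
        nlinarith
  · exfalso
    have : 0 < m * b ^ 5 := by positivity
    have h2 : 0 < (b + m * n) ^ 3 := by
      have : 0 ≤ m * n := by positivity
      positivity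
    nlinarith

end H98Q
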