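import Pool.Agent.H98Q.ThreeY

namespace H98Q

variable {b M N A σ : ℤ}

theorem sq_root {M s : ℤ} {j : ℕ} (hM : 1 ≤ M) (hs : 1 ≤ s) (h : M ^ 2 = s ^ (2 * j + 1)) :
    ∃ t : ℤ, 1 ≤ t ∧ M = t ^ (2 * j + 1) := by
  have h1 : (s ^ j) ^ 2 ∣ M ^ 2 := ⟨s, by rw [h]; ring⟩
  have h2 : s ^ j ∣ M := (Int.pow_dvd_pow_iff (by norm_num)).mp h1
  obtain ⟨t, ht⟩ := h2
  have hsj : 0 < s ^ j := by positivity
  have ht1 : 1 ≤ t := by
    by_contra hcon
    push Not at hcon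
    nlinarith
  have h3 : (s ^ j) ^ 2 * t ^ 2 = (s ^ j) ^ 2 * s := by
    rw [ht] at h
    linear_combination h
  have h4 : t ^ 2 = s := mul_left_cancel₀ (by positivity) h3
  refine ⟨t, ht1, ?_⟩
  rw [ht, ← h4]
  ring

theorem powgap {u D : ℤ} (hu : 1 ≤ u) (hD : 1 ≤ D) (k : ℕ) (hne : u ≠ D) :
    u ^ (k + 1) ≤ u * |u ^ (k + 1) - D ^ (k + 1)| := by
  have huk : 0 < u ^ k := by positivity
  have key : u ^ k ≤ |u ^ (k + 1) - D ^ (k + 1)| := by
    rcases lt_or_gt_of_ne hne with h | h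
    · have h1 : (u + 1) * u ^ k ≤ D * D ^ k :=
        mul_le_mul (by omega) (pow_le_pow_left₀ (by omega) (by omega) k) huk.le (by omega)
      have h2 := neg_le_abs (u ^ (k + 1) - D ^ (k + 1))
      rw [pow_succ, pow_succ] at h2 ⊢
      nlinarith
    · have h1 : D * D ^ k ≤ (u - 1) * u ^ k :=
        mul_le_mul (by omega) (pow_le_pow_left₀ (by omega) (by omega) k) (by positivity) (by omega)
      have h2 := le_abs_self (u ^ (k + 1) - D ^ (k + 1))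
      rw [pow_succ, pow_succ] at h2 ⊢
      nlinarith
  calc u ^ (k + 1) = u * u ^ k := by ring
    _ ≤ _ := mul_le_mul_of_nonneg_left key (by omega)

theorem R.up (h : R b M N A σ) (hM2 : 2 ≤ M) (hNb : N ≤ b ^ 3) :
    |b ^ 5 - M ^ 2 * N ^ 3| ≤ 7 * (M * N ^ 2 * b) + b ^ 3 ∧ M ^ 2 * N ^ 3 ≤ 8 * b ^ 5 := by
  have hb := h.hb
  have hN := h.hN
  have hA := h.hA
  have r := h.r
  have e := h.e
  have hb35 : b ^ 3 ≤ b ^ 5 := pow_le_pow_right₀ (by omega) (by norm_num)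
  have hb3 : 0 < b ^ 3 := by positivity
  have hb5 : 0 < b ^ 5 := by positivity
  have hMb : b ^ 5 ≤ M * b ^ 5 := by nlinarith
  have hge : b ≤ M * N := by
    rcases h.hσ with hs | hs <;> subst hs
    · linarith
    · have h1 : (2 * b) ^ 3 ≤ A ^ 3 := by
        have h2 : 8 * b ^ 3 ≤ M * b ^ 5 := by
          have h3 : 4 * b ^ 3 ≤ b ^ 5 := by
            have : 4 ≤ b ^ 2 := by nlinarith
            have h4 : b ^ 5 = b ^ 2 * b ^ 3 := by ring
            rw [h4]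
            nlinarith
          nlinarith
        have h5 : (2 * b) ^ 3 = 8 * b ^ 3 := by ring
        rw [h5, e]
        linarith
      have h6 : 2 * b ≤ A := le_of_pow_le_pow_left₀ (by norm_num) (by omega) h1
      linarith
  have hle : (M * N) ^ 3 ≤ 8 * (M * b ^ 5) := by
    rcases h.hσ with hs | hs <;> subst hs
    · have h1 : (A + b) ^ 3 ≤ 4 * (A ^ 3 + b ^ 3) := by nlinarith [sq_nonneg (A - b)]
      have h2 : M * N = A + b := by linarith
      rw [h2]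
      linarith
    · have h1 : (M * N) ^ 3 ≤ A ^ 3 := pow_le_pow_left₀ (by positivity) (by linarith) 3
      linarith
  have h8 : M ^ 2 * N ^ 3 ≤ 8 * b ^ 5 := by
    have h1 : M * (M ^ 2 * N ^ 3) ≤ M * (8 * b ^ 5) := by linarith [hle, mul_pow M N 3]
    exact le_of_mul_le_mul_left h1 (by omega)
  refine ⟨?_, h8⟩
  have hNb2 : N * b ^ 2 ≤ M * N ^ 2 * b := by
    have : N * b * b ≤ N * b * (M * N) := mul_le_mul_of_nonneg_left hge (by positivity)
    linarith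
  have hN1 : N ≤ M * N ^ 2 * b := by
    have : N * 1 ≤ N * (M * N * b) := mul_le_mul_of_nonneg_left (by
      have : 1 ≤ M * N := by linarith
      nlinarith) (by omega)
    linarith
  have hMpos : 0 < M := by omega
  have hX : M * |b ^ 5 - M ^ 2 * N ^ 3| ≤ M * (7 * (M * N ^ 2 * b) + b ^ 3) := by
    have h0 : M * |b ^ 5 - M ^ 2 * N ^ 3| = |M * (b ^ 5 - M ^ 2 * N ^ 3)| := by
      rw [abs_mul, abs_of_pos hMpos]
    rw [h0]
    have q1 : M * b ^ 3 ≥ b ^ 3 := by nlinarith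
    have q2 : M * N ≥ N := by nlinarith
    have q3 : M * (N * b ^ 2) ≤ M * (M * N ^ 2 * b) := mul_le_mul_of_nonneg_left hNb2 hMpos.le
    have q4 : M * N ≤ M * (M * N ^ 2 * b) := mul_le_mul_of_nonneg_left hN1 hMpos.le
    have q5 : 0 < M * (M * N ^ 2 * b) := by positivity
    have q6 : 0 < M * (N * b ^ 2) := by positivity
    rcases h.hσ with hs | hs <;> subst hs
    · have hz : M * (b ^ 5 - M ^ 2 * N ^ 3) =
          -3 * (M * (M * N ^ 2 * b)) + 3 * (M * (N * b ^ 2)) - b ^ 3 + N := by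
        have hA' : A = M * N - b := by linarith
        rw [hA'] at e
        linear_combination -e
      rw [hz, abs_le]
      constructor <;> linarith
    · have hz : M * (b ^ 5 - M ^ 2 * N ^ 3) =
          3 * (M * (M * N ^ 2 * b)) + 3 * (M * (N * b ^ 2)) + b ^ 3 - N := by
        have hA' : A = M * N + b := by linarith
        rw [hA'] at e
        linear_combination -e
      rw [hz, abs_le]
      constructor <;> linarith
  exact le_of_mul_le_mul_left hX hMpos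

theorem R.kth (h : R b M N A σ) (hM2 : 2 ≤ M) (hNb : N ≤ b ^ 3) {β μ ν : ℤ} {i : ℕ}
    (hβ : 1 ≤ β) (hμ : 1 ≤ μ) (hν : 1 ≤ ν) (h1 : b = β ^ (i + 11)) (h2 : M = μ ^ (i + 11))
    (h3 : N = ν ^ (i + 11)) : False := by
  have hb := h.hb
  have hN := h.hN
  obtain ⟨hup, h8⟩ := h.up hM2 hNb
  have hβ2 : 2 ≤ β := by
    rcases eq_or_lt_of_le hβ with hh | hh
    · rw [← hh, one_pow] at h1; omega
    · omega
  have hμ2 : 2 ≤ μ := by
    rcases eq_or_lt_of_le hμ with hh | hh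
    · rw [← hh, one_pow] at h2; omega
    · omega
  have hu1 : 1 ≤ β ^ 5 := one_le_pow₀ hβ
  have hD1 : 1 ≤ μ ^ 2 * ν ^ 3 := by
    have := one_le_pow₀ hμ (n := 2)
    have := one_le_pow₀ hν (n := 3)
    nlinarith
  have hb5 : (β ^ 5) ^ (i + 10 + 1) = b ^ 5 := by rw [h1]; ring
  have hD5 : (μ ^ 2 * ν ^ 3) ^ (i + 10 + 1) = M ^ 2 * N ^ 3 := by rw [h2, h3]; ring
  have hne : β ^ 5 ≠ μ ^ 2 * ν ^ 3 := by
    intro hh
    have h4 : b ^ 5 = M ^ 2 * N ^ 3 := by rw [← hb5, ← hD5, hh]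
    have h5 : M ∣ b ^ 5 := ⟨M * N ^ 3, by rw [h4]; ring⟩
    have h6 : IsCoprime (b ^ 5) M := IsCoprime.pow_left h.bM
    have h7 : IsUnit M := h6.symm.isUnit_of_dvd' dvd_rfl h5
    rcases Int.isUnit_iff.mp h7 with h9 | h9 <;> omega
  have hgap := powgap hu1 hD1 (i + 10) hne
  rw [hb5, hD5] at hgap
  set T := M * N ^ 2 * b with hT
  have hT1 : 0 < T := by positivity
  have hu0 : 0 < β ^ 5 := by positivity
  have s1 : b ^ 5 ≤ β ^ 5 * (7 * T + b ^ 3) := hgap.trans (mul_le_mul_of_nonneg_left hup hu0.le)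
  have hb2 : 4 * β ^ 5 ≤ b ^ 2 := by
    have : β ^ 7 ≤ b ^ 2 := by
      rw [h1, ← pow_mul]
      exact pow_le_pow_right₀ hβ (by omega)
    have h4 : (4 : ℤ) ≤ β ^ 2 := by nlinarith
    have h5 : β ^ 7 = β ^ 2 * β ^ 5 := by ring
    nlinarith
  have s2 : 4 * (β ^ 5 * b ^ 3) ≤ b ^ 5 := by
    have : 4 * β ^ 5 * b ^ 3 ≤ b ^ 2 * b ^ 3 := mul_le_mul_of_nonneg_right hb2 (by positivity)
    linarith [pow_add b 2 3]
  have s3 : b ^ 5 ≤ 10 * (β ^ 5 * T) := by nlinarith [mul_pos hu0 hT1]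
  have s4 : (b ^ 5) ^ 3 ≤ (10 * (β ^ 5 * T)) ^ 3 := pow_le_pow_left₀ (by positivity) s3 3
  have s5 : M * T ^ 3 ≤ 64 * b ^ 13 := by
    have h4 : (M ^ 2 * N ^ 3) ^ 2 ≤ (8 * b ^ 5) ^ 2 := pow_le_pow_left₀ (by positivity) h8 2
    have h5 : M * T ^ 3 = (M ^ 2 * N ^ 3) ^ 2 * b ^ 3 := by rw [hT]; ring
    rw [h5]
    calc (M ^ 2 * N ^ 3) ^ 2 * b ^ 3 ≤ (8 * b ^ 5) ^ 2 * b ^ 3 :=
          mul_le_mul_of_nonneg_right h4 (by positivity)
      _ = 64 * b ^ 13 := by ring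
  have s6 : (M * b ^ 2) * b ^ 13 ≤ (64000 * β ^ 15) * b ^ 13 := by
    calc (M * b ^ 2) * b ^ 13 = M * (b ^ 5) ^ 3 := by ring
      _ ≤ M * (10 * (β ^ 5 * T)) ^ 3 := mul_le_mul_of_nonneg_left s4 (by omega)
      _ = 1000 * β ^ 15 * (M * T ^ 3) := by ring
      _ ≤ 1000 * β ^ 15 * (64 * b ^ 13) := mul_le_mul_of_nonneg_left s5 (by positivity)
      _ = _ := by ring
  have s7 : M * b ^ 2 ≤ 64000 * β ^ 15 := le_of_mul_le_mul_right s6 (by positivity)
  have s8 : (2048 : ℤ) ≤ M := by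
    rw [h2]
    calc (2048 : ℤ) = 2 ^ 11 := by norm_num
      _ ≤ μ ^ 11 := pow_le_pow_left₀ (by norm_num) hμ2 11
      _ ≤ μ ^ (i + 11) := pow_le_pow_right₀ hμ (by omega)
  have s9 : 128 * β ^ 15 ≤ b ^ 2 := by
    have h4 : β ^ 22 ≤ b ^ 2 := by
      rw [h1, ← pow_mul]
      exact pow_le_pow_right₀ hβ (by omega)
    have h5 : (128 : ℤ) ≤ β ^ 7 := by
      calc (128 : ℤ) = 2 ^ 7 := by norm_num
        _ ≤ β ^ 7 := pow_le_pow_left₀ (by norm_num) hβ2 7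
    calc 128 * β ^ 15 ≤ β ^ 7 * β ^ 15 := mul_le_mul_of_nonneg_right h5 (by positivity)
      _ = β ^ 22 := by ring
      _ ≤ b ^ 2 := h4
  have s10 : 0 < β ^ 15 := by positivity
  nlinarith [mul_le_mul s8 s9 (by positivity) (by omega)]

end H98Q
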