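import Pool.Agent.H98Q.Diff

namespace H98Q

variable {b M N : ℤ}

theorem roots3 (hb : 1 ≤ b) (hM : 1 ≤ M) (hN : 1 ≤ N) (bM : IsCoprime b M) (bN : IsCoprime b N)
    (MN : IsCoprime M N) {c l : ℕ} (h : b * M ^ 2 * N = (c : ℤ) ^ (2 * l + 3)) :
    ∃ β μ ν : ℤ, 1 ≤ β ∧ 1 ≤ μ ∧ 1 ≤ ν ∧ b = β ^ (2 * l + 3) ∧ M = μ ^ (2 * l + 3) ∧
      N = ν ^ (2 * l + 3) := by
  have hM2 : 1 ≤ M ^ 2 := one_le_pow₀ hM
  obtain ⟨β, hβ, hβ'⟩ := int_root (c := c) (i := 2 * l + 1) (u := b) (v := M ^ 2 * N) hb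
    (by nlinarith) (IsCoprime.mul_right (IsCoprime.pow_right bM) bN)
    (by rw [← mul_assoc, h])
  obtain ⟨s, hs, hs'⟩ := int_root (c := c) (i := 2 * l + 1) (u := M ^ 2) (v := b * N) hM2
    (by nlinarith) (IsCoprime.mul_right (IsCoprime.pow_left bM.symm) (IsCoprime.pow_left MN))
    (by rw [show M ^ 2 * (b * N) = b * M ^ 2 * N by ring, h])
  obtain ⟨ν, hν, hν'⟩ := int_root (c := c) (i := 2 * l + 1) (u := N) (v := b * M ^ 2) hN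
    (by nlinarith) (IsCoprime.mul_right bN.symm (IsCoprime.pow_right MN.symm))
    (by rw [show N * (b * M ^ 2) = b * M ^ 2 * N by ring, h])
  obtain ⟨μ, hμ, hμ'⟩ := sq_root (j := l + 1) hM hs
    (by rw [hs', show 2 * l + 1 + 2 = 2 * (l + 1) + 1 by ring])
  exact ⟨β, μ, ν, hβ, hμ, hν, hβ', by rw [hμ', show 2 * (l + 1) + 1 = 2 * l + 3 by ring], hν'⟩

theorem kform {k : ℕ} (hk : k = 3 ∨ (Odd k ∧ 9 ≤ k)) :
    ∃ l, k = 2 * l + 3 ∧ (l = 0 ∨ l = 3 ∨ ∃ i, 2 * l + 3 = i + 11) := by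
  rcases hk with rfl | ⟨⟨j, rfl⟩, h⟩
  · exact ⟨0, rfl, Or.inl rfl⟩
  · refine ⟨j - 1, by omega, ?_⟩
    by_cases h4 : j = 4
    · exact Or.inr (Or.inl (by omega))
    · exact Or.inr (Or.inr ⟨2 * (j - 1) - 8, by omega⟩)

theorem P.diff {x y : ℤ} (h : P b M N) (hx : x = b ^ 2 * M)
    (hy : y = -((M * N - b) * (b * M))) {c k : ℕ} (hk : k = 3 ∨ (Odd k ∧ 9 ≤ k))
    (hc : (y - x).natAbs = c ^ k) : b = 1 ∨ M = 1 := by
  have hb := h.hb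
  have hM := h.hM
  have hN := h.hN
  obtain ⟨l, rfl, hl⟩ := kform hk
  have h1 := natAbs_int (w := b * M ^ 2 * N) hc (by positivity) (by rw [hx, hy]; ring)
  obtain ⟨β, μ, ν, hβ, hμ, hν, e1, e2, e3⟩ := roots3 hb hM hN h.bM h.bN h.copMN h1
  by_contra hcon
  push Not at hcon
  rcases hl with rfl | rfl | ⟨i, hi⟩
  · exact hcon.2 (h.cube (c := β ^ 2 * μ) (by rw [e1, e2]; ring))
  · exact hcon.2 (h.cube (c := (β ^ 2 * μ) ^ 3) (by rw [e1, e2]; ring))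
  · rw [hi] at e1 e2 e3
    exact (h.toR (by omega)).kth (by omega) h.Nle hβ hμ hν e1 e2 e3

theorem Q.diff {x y : ℤ} (h : Q b M N) (hx : x = -(b ^ 2 * M))
    (hy : y = -((M * N + b) * (b * M))) {c k : ℕ} (hk : k = 3 ∨ (Odd k ∧ 9 ≤ k))
    (hc : (y - x).natAbs = c ^ k) : b = 1 ∨ M = 1 := by
  have hb := h.hb
  have hM := h.hM
  have hN := h.hN
  obtain ⟨l, rfl, hl⟩ := kform hk
  have h1 := natAbs_int (w := b * M ^ 2 * N) hc (by positivity) (by rw [hx, hy]; ring)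
  obtain ⟨β, μ, ν, hβ, hμ, hν, e1, e2, e3⟩ := roots3 hb hM hN h.bM h.bN h.copMN h1
  by_contra hcon
  push Not at hcon
  rcases hl with rfl | rfl | ⟨i, hi⟩
  · exact h.cube (c := β ^ 2 * μ) (by rw [e1, e2]; ring)
  · exact h.cube (c := (β ^ 2 * μ) ^ 3) (by rw [e1, e2]; ring)
  · rw [hi] at e1 e2 e3
    exact (h.toR (by omega)).kth (by omega) h.Nle hβ hμ hν e1 e2 e3

end H98Q
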