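import Pool.Agent.H98Q.Last

namespace H98Q

variable {b M N : ℤ}

theorem chkN : ∀ b : Fin 201, ∀ p : Fin 41, 2 ≤ (b : ℕ) → 1 ≤ (p : ℕ) →
    (p : ℕ) ∣ (b : ℕ) ^ 3 - 1 →
    (((b : ℕ) ^ 3 - 1) / (p : ℕ) - (b : ℕ)) ^ 3 + 1 ≠ (((b : ℕ) ^ 3 - 1) / (p : ℕ)) * (b : ℕ) ^ 5 ∧
    (((b : ℕ) ^ 3 - 1) / (p : ℕ) + (b : ℕ)) ^ 3 ≠ (((b : ℕ) ^ 3 - 1) / (p : ℕ)) * (b : ℕ) ^ 5 + 1 := by
  decide +kernel

theorem P.N1 (h : P b M 1) : b = 1 := by
  by_contra hcon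
  obtain ⟨p, hp, hMp, hd⟩ := h.pp
  have hl := h.low
  have hle := h.Nle
  have hb9 := h.bN9
  have hA0 := h.A0
  obtain ⟨hb, hM, hN, bM, bN, e⟩ := h
  have h0 : 0 ≤ M ^ 2 * (1:ℤ) ^ 3 := by positivity
  have hp2 := psq hb hM hN hp hle hMp (by linarith)
  norm_num at hb9 hp2 hMp
  have hb2 : 2 ≤ b := by omega
  have hp40 : p ≤ 40 := by nlinarith
  have hp1 : 1 ≤ p := by
    by_contra hc
    have : p = 0 := by omega
    subst this
    have : 2 ^ 3 ≤ b ^ 3 := pow_le_pow_left₀ (by norm_num) hb2 3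
    linarith
  obtain ⟨b', rfl⟩ := Int.eq_ofNat_of_zero_le (show 0 ≤ b by omega)
  obtain ⟨M', rfl⟩ := Int.eq_ofNat_of_zero_le (show 0 ≤ M by omega)
  obtain ⟨p', rfl⟩ := Int.eq_ofNat_of_zero_le (show 0 ≤ p by omega)
  have hb3 : 1 ≤ b' ^ 3 := Nat.one_le_pow _ _ (by omega)
  have hMp' : M' * p' = b' ^ 3 - 1 := by
    have : ((M' * p' : ℕ) : ℤ) = ((b' ^ 3 - 1 : ℕ) : ℤ) := by
      rw [Nat.cast_sub hb3]; push_cast; linarith
    exact_mod_cast this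
  have hdiv : (b' ^ 3 - 1) / p' = M' := by
    rw [← hMp']; exact Nat.mul_div_cancel _ (by omega)
  have h1 := (chkN ⟨b', by omega⟩ ⟨p', by omega⟩ (by simpa using (by omega : 2 ≤ b'))
    (by simpa using (by omega : 1 ≤ p')) ⟨M', by simp only; rw [← hMp']; ring⟩).1
  simp only [hdiv] at h1
  apply h1
  have hbM : b' ≤ M' := by
    have : (b' : ℤ) ≤ (M' : ℤ) := by linarith
    exact_mod_cast this
  have h2 : (((M' - b') ^ 3 + 1 : ℕ) : ℤ) = ((M' * b' ^ 5 : ℕ) : ℤ) := by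
    push_cast [Nat.cast_sub hbM]
    linarith
  exact_mod_cast h2

theorem Q.N1 (h : Q b M 1) : b = 1 := by
  by_contra hcon
  obtain ⟨p, hp, hMp, hd⟩ := h.pp
  have hl := h.low
  have hle := h.Nle
  have hb9 := h.bN9
  obtain ⟨hb, hM, hN, bM, bN, e⟩ := h
  have hp2 := psq hb hM hN hp hle hMp (by linarith)
  norm_num at hb9 hp2 hMp
  have hb2 : 2 ≤ b := by omega
  have hp40 : p ≤ 40 := by nlinarith
  have hp1 : 1 ≤ p := by
    by_contra hc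
    have : p = 0 := by omega
    subst this
    have : 2 ^ 3 ≤ b ^ 3 := pow_le_pow_left₀ (by norm_num) hb2 3
    linarith
  obtain ⟨b', rfl⟩ := Int.eq_ofNat_of_zero_le (show 0 ≤ b by omega)
  obtain ⟨M', rfl⟩ := Int.eq_ofNat_of_zero_le (show 0 ≤ M by omega)
  obtain ⟨p', rfl⟩ := Int.eq_ofNat_of_zero_le (show 0 ≤ p by omega)
  have hb3 : 1 ≤ b' ^ 3 := Nat.one_le_pow _ _ (by omega)
  have hMp' : M' * p' = b' ^ 3 - 1 := by
    have : ((M' * p' : ℕ) : ℤ) = ((b' ^ 3 - 1 : ℕ) : ℤ) := by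
      rw [Nat.cast_sub hb3]; push_cast; linarith
    exact_mod_cast this
  have hdiv : (b' ^ 3 - 1) / p' = M' := by
    rw [← hMp']; exact Nat.mul_div_cancel _ (by omega)
  have h1 := (chkN ⟨b', by omega⟩ ⟨p', by omega⟩ (by simpa using (by omega : 2 ≤ b'))
    (by simpa using (by omega : 1 ≤ p')) ⟨M', by simp only; rw [← hMp']; ring⟩).2
  simp only [hdiv] at h1
  apply h1
  have h2 : (((M' + b') ^ 3 : ℕ) : ℤ) = ((M' * b' ^ 5 + 1 : ℕ) : ℤ) := by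
    push_cast
    linarith
  exact_mod_cast h2

theorem bigcube {b M X : ℤ} (hb : 2 ≤ b) (hM : 2 ≤ M) (hX : M ^ 2 * b ^ 2 ≤ 2 * X) :
    2 * (M * b ^ 5) ≤ X ^ 3 := by
  have h1 : (M ^ 2 * b ^ 2) ^ 3 ≤ (2 * X) ^ 3 := pow_le_pow_left₀ (by positivity) hX 3
  have h2 : 2 ^ 5 ≤ M ^ 5 := pow_le_pow_left₀ (by norm_num) hM 5
  have h3 : 0 < M * b ^ 5 := by positivity
  have h4 : (M ^ 2 * b ^ 2) ^ 3 = (M ^ 5 * b) * (M * b ^ 5) := by ring
  have h5 : 64 ≤ M ^ 5 * b := by nlinarith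
  nlinarith

theorem P.K1 (h : P b M N) (hK : N * 1 = M * b ^ 2 + 1) : b = 1 ∨ M = 1 := by
  by_contra hcon
  push Not at hcon
  obtain ⟨hb, hM, hN, bM, bN, e⟩ := h
  have hb2 : 2 ≤ b := by omega
  have hM2 : 2 ≤ M := by omega
  have hN' : N = M * b ^ 2 + 1 := by linarith
  have h1 : M ^ 2 * b ^ 2 ≤ 2 * (M * N - b) := by
    rw [hN']
    nlinarith [mul_nonneg (show (0:ℤ) ≤ M - 2 by omega) (show (0:ℤ) ≤ b ^ 2 by positivity)]
  have h2 := bigcube hb2 hM2 h1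
  have h3 : 0 < M * b ^ 5 := by positivity
  linarith

theorem Q.K1 (h : Q b M N) (hK : N * 1 = M * b ^ 2 - 1) : b = 1 ∨ M = 1 := by
  by_contra hcon
  push Not at hcon
  obtain ⟨hb, hM, hN, bM, bN, e⟩ := h
  have hb2 : 2 ≤ b := by omega
  have hM2 : 2 ≤ M := by omega
  have hN' : N = M * b ^ 2 - 1 := by linarith
  have h1 : M ^ 2 * b ^ 2 ≤ 2 * (M * N + b) := by
    rw [hN']
    nlinarith [mul_nonneg (show (0:ℤ) ≤ M - 2 by omega) (show (0:ℤ) ≤ b ^ 2 by positivity)]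
  have h2 := bigcube hb2 hM2 h1
  have h3 : M * b ^ 2 < M * b ^ 5 := by
    have : b ^ 2 < b ^ 5 := pow_lt_pow_right₀ (by omega) (by norm_num)
    nlinarith
  linarith

theorem odd_pp {u v p k : ℕ} (hp : p.Prime) (h : u * v = p ^ k) (hc : ¬ (p ∣ u ∧ p ∣ v)) :
    u = 1 ∨ v = 1 := by
  obtain ⟨i, -, hi⟩ := (Nat.dvd_prime_pow hp).mp (Dvd.intro _ h)
  obtain ⟨j, -, hj⟩ := (Nat.dvd_prime_pow hp).mp (Dvd.intro_left _ h)
  rcases Nat.eq_zero_or_pos i with hi0 | hi0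
  · left; rw [hi, hi0, pow_zero]
  · rcases Nat.eq_zero_or_pos j with hj0 | hj0
    · right; rw [hj, hj0, pow_zero]
    · exfalso
      exact hc ⟨by rw [hi]; exact dvd_pow_self p hi0.ne', by rw [hj]; exact dvd_pow_self p hj0.ne'⟩

theorem odd_pp_int {N K z c : ℤ} {p k : ℕ} (hp : p.Prime) (hp2 : p ≠ 2) (hz : z.natAbs = p ^ k)
    (hN : 1 ≤ N) (hK : 1 ≤ K) (h : z = N * K ∨ z = -(N * K)) (hc : N ∣ c * K + 2 ∨ N ∣ c * K - 2) :
    N = 1 ∨ K = 1 := by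
  have h1 : N.natAbs * K.natAbs = p ^ k := by
    rw [← hz, ← Int.natAbs_mul]
    rcases h with h | h
    · rw [h]
    · rw [h, Int.natAbs_neg]
  rcases odd_pp hp h1 (by
    rintro ⟨h2, h3⟩
    have h4 : (p : ℤ) ∣ N := Int.natCast_dvd.mpr h2
    have h5 : (p : ℤ) ∣ K := Int.natCast_dvd.mpr h3
    have h6 : (p : ℤ) ∣ 2 := by
      rcases hc with h7 | h7
      · have h8 := dvd_sub (h4.trans h7) (h5.mul_left c)
        simpa using h8
      · have h8 := dvd_sub (h5.mul_left c) (h4.trans h7)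
        simpa using h8
    have h9 : p ∣ 2 := by exact_mod_cast h6
    exact hp2 ((Nat.prime_dvd_prime_iff_eq hp Nat.prime_two).mp h9)) with h3 | h3
  · left; omega
  · right; omega

theorem P.xp {x : ℤ} {p k : ℕ} (h : P b M N) (hp : p.Prime) (hp2 : p ≠ 2) (hx : x = b ^ 2 * M)
    (hpk : (x + 1).natAbs = p ^ k) : b = 1 ∨ M = 1 := by
  obtain ⟨K, hK, hNK, hd⟩ := h.K
  have hc : N ∣ b ^ 3 * K + 2 := by
    have h1 : N * (b ^ 3 * K + 2) = N * (N * (M ^ 3 * N - 3 * M ^ 2 * b + 3 * K)) := by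
      linear_combination (b ^ 3 - 3 * N) * hNK - h.e
    exact ⟨_, mul_left_cancel₀ (by have := h.hN; omega) h1⟩
  rcases odd_pp_int (c := b ^ 3) hp hp2 hpk h.hN hK (Or.inl (by rw [hx, hNK]; ring))
    (Or.inl hc) with h1 | h1
  · subst h1; left; exact h.N1
  · subst h1; exact h.K1 hNK

theorem Q.xp {x : ℤ} {p k : ℕ} (h : Q b M N) (hp : p.Prime) (hp2 : p ≠ 2) (hx : x = -(b ^ 2 * M))
    (hpk : (x + 1).natAbs = p ^ k) : b = 1 ∨ M = 1 := by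
  obtain ⟨K, hK, hNK, hd⟩ := h.K
  have hc : N ∣ b ^ 3 * K - 2 := by
    have h1 : N * (b ^ 3 * K - 2) = N * (N * (M ^ 3 * N + 3 * M ^ 2 * b + 3 * K)) := by
      linear_combination (b ^ 3 - 3 * N) * hNK - h.e
    exact ⟨_, mul_left_cancel₀ (by have := h.hN; omega) h1⟩
  rcases odd_pp_int (c := b ^ 3) hp hp2 hpk h.hN hK (Or.inr (by rw [hx, hNK]; ring))
    (Or.inr hc) with h1 | h1
  · subst h1; left; exact h.N1
  · subst h1; exact h.K1 hNK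

end H98Q
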