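import Pool.Agent.H98Q.Main

namespace H98Q

/-- common form of the two sign cases -/
structure R (b M N A σ : ℤ) : Prop where
  hb : 2 ≤ b
  hM : 1 ≤ M
  hN : 1 ≤ N
  hA : 1 ≤ A
  hσ : σ = 1 ∨ σ = -1
  bM : IsCoprime b M
  bA : IsCoprime b A
  r : M * N = A + σ * b
  e : A ^ 3 = M * b ^ 5 - σ * N

variable {b M N A σ : ℤ}

theorem R.rel (h : R b M N A σ) :
    b * ((M * b ^ 2 - 1) * (M * b ^ 2 + 1)) = A * (A ^ 2 * M + σ) := by
  have e := h.e
  have r := h.r
  rcases h.hσ with hs | hs <;> subst hs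
  · linear_combination -M * e + r
  · linear_combination -M * e - r

theorem R.fac (h : R b M N A σ) :
    (Int.gcd A (M * b ^ 2 - 1) : ℤ) * (Int.gcd A (M * b ^ 2 + 1) : ℤ) = A := by
  have hrel := h.rel
  have hA := h.hA
  have h1 : A ∣ (M * b ^ 2 - 1) * (M * b ^ 2 + 1) := by
    have : A ∣ b * ((M * b ^ 2 - 1) * (M * b ^ 2 + 1)) := ⟨_, hrel⟩
    exact h.bA.symm.dvd_of_dvd_mul_left this
  obtain ⟨w, hw⟩ := h1
  have hbw : b * w = A ^ 2 * M + σ := by
    have : A * (b * w) = A * (A ^ 2 * M + σ) := by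
      rw [← hrel, hw]; ring
    exact mul_left_cancel₀ (by omega) this
  have hwA : IsCoprime w A := by
    rcases h.hσ with hs | hs <;> subst hs
    · exact ⟨b, -(A * M), by linear_combination hbw⟩
    · exact ⟨-b, A * M, by linear_combination -hbw⟩
  set α := (Int.gcd A (M * b ^ 2 - 1) : ℤ) with hα
  set β := (Int.gcd A (M * b ^ 2 + 1) : ℤ) with hβ
  have hαA : α ∣ A := Int.gcd_dvd_left ..
  have hβA : β ∣ A := Int.gcd_dvd_left ..
  have hαu : α ∣ M * b ^ 2 - 1 := Int.gcd_dvd_right ..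
  have hβu : β ∣ M * b ^ 2 + 1 := Int.gcd_dvd_right ..
  have h2 : α * β ∣ A := by
    have h3 : α * β ∣ w * A := by
      have := mul_dvd_mul hαu hβu
      rw [hw, mul_comm A w] at this
      exact this
    have h4 : IsCoprime α w := (hwA.symm).of_isCoprime_of_dvd_left hαA
    have h5 : IsCoprime β w := (hwA.symm).of_isCoprime_of_dvd_left hβA
    exact (IsCoprime.mul_left h4 h5).dvd_of_dvd_mul_left h3
  have h6 : A ∣ α * β := by
    have h7 : A.natAbs ∣ (M * b ^ 2 - 1).natAbs * (M * b ^ 2 + 1).natAbs := by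
      rw [← Int.natAbs_mul]
      exact Int.natAbs_dvd_natAbs.mpr ⟨w, hw⟩
    have h8 : A.natAbs ∣ Int.gcd A (M * b ^ 2 - 1) * Int.gcd A (M * b ^ 2 + 1) := by
      have h9 := Nat.gcd_mul_right_dvd_mul_gcd A.natAbs (M * b ^ 2 - 1).natAbs (M * b ^ 2 + 1).natAbs
      rw [Nat.gcd_eq_left h7] at h9
      exact h9
    have h10 := Int.natCast_dvd_natCast.mpr h8
    rw [Int.natAbs_of_nonneg (by omega)] at h10
    push_cast at h10
    exact h10
  exact Int.dvd_antisymm (by positivity) (by omega) h2 h6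

theorem cubeDiv {q b M A σ δ : ℤ} (hσ : σ = 1 ∨ σ = -1) (hδ : δ = 1 ∨ δ = -1) (hq : q ≠ 0)
    (hqA : q ∣ A) (hqu : q ∣ M * b ^ 2 - δ) (hqb : IsCoprime q b)
    (hrel : b * ((M * b ^ 2 - 1) * (M * b ^ 2 + 1)) = A * (A ^ 2 * M + σ)) :
    q ^ 3 ∣ M * (8 * b ^ 2 - 4 * σ * A * b + 3 * A ^ 2) - 8 * δ := by
  obtain ⟨r, rfl⟩ := hqA
  obtain ⟨w, hw⟩ := hqu
  have e2 : b * w * (q * w + 2 * δ) = r * (q ^ 2 * r ^ 2 * M + σ) := by
    have h1 : q * (b * w * (q * w + 2 * δ)) = q * (r * (q ^ 2 * r ^ 2 * M + σ)) := by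
      rcases hδ with hd | hd <;> subst hd
      · have h2 : M * b ^ 2 + 1 = q * w + 2 := by linear_combination hw
        have h3 : M * b ^ 2 - 1 = q * w := hw
        rw [h2, h3] at hrel
        linear_combination hrel
      · have h2 : M * b ^ 2 + 1 = q * w := by linear_combination hw
        have h3 : M * b ^ 2 - 1 = q * w - 2 := by linear_combination hw
        rw [h2, h3] at hrel
        linear_combination hrel
    exact mul_left_cancel₀ hq h1
  have h3 : q ^ 3 ∣ b ^ 2 * (M * (8 * b ^ 2 - 4 * σ * (q * r) * b + 3 * (q * r) ^ 2) - 8 * δ) := by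
    refine ⟨4 * δ * b * r ^ 3 * M + 3 * r ^ 2 * w
      - (q * r ^ 3 * M - b * w ^ 2) * (2 * b * w + 3 * δ * σ * r), ?_⟩
    rcases hδ with hd | hd <;> subst hd <;> rcases hσ with hs | hs <;> subst hs
    · linear_combination (4 * 1 * b * q - q ^ 2 * (2 * b * w + 3 * 1 * 1 * r)) * e2
        + (8 * b ^ 2 - 4 * 1 * (q * r) * b + 3 * (q * r) ^ 2) * hw
    · linear_combination (4 * 1 * b * q - q ^ 2 * (2 * b * w + 3 * 1 * (-1) * r)) * e2
        + (8 * b ^ 2 - 4 * (-1) * (q * r) * b + 3 * (q * r) ^ 2) * hw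
    · linear_combination (4 * (-1) * b * q - q ^ 2 * (2 * b * w + 3 * (-1) * 1 * r)) * e2
        + (8 * b ^ 2 - 4 * 1 * (q * r) * b + 3 * (q * r) ^ 2) * hw
    · linear_combination (4 * (-1) * b * q - q ^ 2 * (2 * b * w + 3 * (-1) * (-1) * r)) * e2
        + (8 * b ^ 2 - 4 * (-1) * (q * r) * b + 3 * (q * r) ^ 2) * hw
  exact (IsCoprime.pow hqb).dvd_of_dvd_mul_left h3

end H98Q
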