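import Pool.Agent.H98Q.Check

namespace H98Q

variable {b M N : ℤ}

/-- the case M = 1, positive x -/
theorem P.one (h : P b 1 N) : (b = 1 ∧ N = 1) ∨ (b = 2 ∧ N = 5) := by
  obtain ⟨K, hK, hNK, hd⟩ := h.K
  have hK3 := h.K3 hK hNK
  have hbK := h.bK hK hd
  obtain ⟨hb, hM, hN, bM, bN, e⟩ := h
  have h1 : K ≤ 16 := by
    by_contra hcon
    push Not at hcon
    nlinarith [mul_nonneg (sq_nonneg K) (show (0:ℤ) ≤ K - 17 by omega)]
  have h2 : b ≤ 257 := by nlinarith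
  obtain ⟨b', rfl⟩ := Int.eq_ofNat_of_zero_le (show 0 ≤ b by omega)
  obtain ⟨K', rfl⟩ := Int.eq_ofNat_of_zero_le (show 0 ≤ K by omega)
  obtain ⟨N', rfl⟩ := Int.eq_ofNat_of_zero_le (show 0 ≤ N by omega)
  have hNK' : N' * K' = b' ^ 2 + 1 := by
    have : ((N' * K' : ℕ) : ℤ) = ((b' ^ 2 + 1 : ℕ) : ℤ) := by push_cast; linarith
    exact_mod_cast this
  have hK0 : 0 < K' := by omega
  have hdiv : (b' ^ 2 + 1) / K' = N' := by
    rw [← hNK']; exact Nat.mul_div_cancel _ hK0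
  have h3 := chkP ⟨b', by omega⟩ ⟨K', by omega⟩ (by simpa using (by omega : 0 < b')) hK0
    ⟨N', by simp only; rw [← hNK']; ring⟩ (by
      simp only
      rw [hdiv]
      linarith [e])
  simp only at h3
  rcases h3 with h3 | h3
  · left
    subst h3
    refine ⟨rfl, ?_⟩
    have h5 : ((N' : ℤ) - 1) * (((N' : ℤ) - 1) ^ 2 + 1) = 0 := by
      push_cast at e
      linear_combination e
    rcases mul_eq_zero.mp h5 with h6 | h6
    · linarith
    · nlinarith [sq_nonneg ((N' : ℤ) - 1)]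
  · right
    subst h3
    refine ⟨by norm_num, ?_⟩
    have h5 : ((N' : ℤ) - 5) * (((N' : ℤ) - 2) ^ 2 + 3 * ((N' : ℤ) - 2) + 10) = 0 := by
      push_cast at e
      linear_combination e
    rcases mul_eq_zero.mp h5 with h6 | h6
    · linarith
    · nlinarith [sq_nonneg ((N' : ℤ) - 2), sq_nonneg (2 * ((N' : ℤ) - 2) + 3)]

theorem Q.one (h : Q b 1 N) : False := by
  obtain ⟨K, hK, hNK, hd⟩ := h.K
  have hK3 := h.K3 hK hNK
  have hbK := h.bK hK hNK hd
  obtain ⟨hb, hM, hN, bM, bN, e⟩ := h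
  have h1 : K ≤ 16 := by
    by_contra hcon
    push Not at hcon
    nlinarith [mul_nonneg (sq_nonneg K) (show (0:ℤ) ≤ K - 17 by omega)]
  have h2 : b ≤ 257 := by nlinarith
  obtain ⟨b', rfl⟩ := Int.eq_ofNat_of_zero_le (show 0 ≤ b by omega)
  obtain ⟨K', rfl⟩ := Int.eq_ofNat_of_zero_le (show 0 ≤ K by omega)
  obtain ⟨N', rfl⟩ := Int.eq_ofNat_of_zero_le (show 0 ≤ N by omega)
  have hb2 : 1 ≤ b' ^ 2 := Nat.one_le_pow _ _ (by omega)
  have hNK' : N' * K' = b' ^ 2 - 1 := by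
    have : ((N' * K' : ℕ) : ℤ) = ((b' ^ 2 - 1 : ℕ) : ℤ) := by
      rw [Nat.cast_sub hb2]; push_cast; linarith
    exact_mod_cast this
  have hK0 : 0 < K' := by omega
  have hdiv : (b' ^ 2 - 1) / K' = N' := by
    rw [← hNK']; exact Nat.mul_div_cancel _ hK0
  have h3 := chkQ ⟨b', by omega⟩ ⟨K', by omega⟩ (by simpa using (by omega : 0 < b')) hK0
    ⟨N', by simp only; rw [← hNK']; ring⟩ (by
      simp only
      rw [hdiv]
      linarith [e])
  simp only at h3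
  subst h3
  push_cast at e
  nlinarith [sq_nonneg (N' : ℤ)]

theorem P.bone (h : P 1 M N) : N = 1 ∧ (M = 1 ∨ M = 2) := by
  obtain ⟨hb, hM, hN, bM, bN, e⟩ := h
  have hMN : 1 ≤ M * N := by nlinarith
  have h1 : M * N - 1 ≤ (M * N - 1) ^ 3 := by
    have h0 : 0 ≤ M * N - 1 := by linarith
    rcases eq_or_lt_of_le h0 with h2 | h2
    · rw [← h2]; norm_num
    · have : 1 ≤ (M * N - 1) ^ 2 := one_le_pow₀ (by omega)
      nlinarith
  have h2 : N * (M + 1) ≤ 1 * (M + 1) := by nlinarith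
  have h3 : N ≤ 1 := le_of_mul_le_mul_right h2 (by omega)
  have hN1 : N = 1 := by omega
  subst hN1
  refine ⟨rfl, ?_⟩
  have h4 : (M - 1) * M * (M - 2) = 0 := by linear_combination e
  rcases mul_eq_zero.mp h4 with h5 | h5
  · rcases mul_eq_zero.mp h5 with h6 | h6
    · left; linarith
    · omega
  · right; linarith

theorem Q.bone (h : Q 1 M N) : False := by
  obtain ⟨hb, hM, hN, bM, bN, e⟩ := h
  have hMN : 1 ≤ M * N := by nlinarith
  have h1 : M * N + 1 < (M * N + 1) ^ 3 := by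
    have : 1 < (M * N + 1) ^ 2 := by nlinarith
    nlinarith
  nlinarith [mul_nonneg (show (0:ℤ) ≤ M - 1 by omega) (show (0:ℤ) ≤ N - 1 by omega)]

end H98Q
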