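import Pool.Agent.H98Q.Omega

namespace H98Q

theorem k4_pp {q r w b M N l : ℤ} (hq : q ≠ 0) (hw : M * b ^ 2 - 1 = q * w)
    (e2 : b * w * (q * w + 2 * 1) = r * (q ^ 2 * r ^ 2 * M + 1))
    (hr : M * N = q * r + 1 * b)
    (hl : M * (8 * b ^ 2 - 4 * 1 * (q * r) * b + 3 * (q * r) ^ 2) - 8 * 1 = q ^ 3 * l) :
    ∃ X, M * b ^ 2 * (4 * ((1 - 16 * (1 * 1)) * (q * r) ^ 2 * b ^ 2
      + 8 * (1 - 4 * 1) * (q * r) * b ^ 3 + 8 * b ^ 4
      - 8 * (1 * 1) * b * N + 4 * (8 * 1 - 1) * N * (q * r))) = q ^ 4 * X := by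
  have hc : b ^ 2 * l = 4 * 1 * b * r ^ 3 * M + 3 * r ^ 2 * w
      - (q * r ^ 3 * M - b * w ^ 2) * (2 * b * w + 3 * (1 * 1) * r) := by
    have h1 : q ^ 3 * (b ^ 2 * l) = q ^ 3 * (4 * 1 * b * r ^ 3 * M + 3 * r ^ 2 * w
      - (q * r ^ 3 * M - b * w ^ 2) * (2 * b * w + 3 * (1 * 1) * r)) := by
      linear_combination (4 * 1 * b * q - q ^ 2 * (2 * b * w + 3 * (1 * 1) * r)) * e2
        + (8 * b ^ 2 - 4 * 1 * (q * r) * b + 3 * (q * r) ^ 2) * hw - b ^ 2 * hl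
    exact mul_left_cancel₀ (pow_ne_zero 3 hq) h1
  have hY : 2 * b * w - (1 * 1) * r = q * (1 * (q * r ^ 3 * M - b * w ^ 2)) := by
    linear_combination 1 * e2
  have hV : M * (2 * 1 * N - 2 * 1 * b ^ 3 - (q * r) * b ^ 2)
      = q ^ 2 * ((1 * 1) * (b * w ^ 2 - q * r ^ 3 * M) - r * w) := by
    linear_combination (2 * 1) * hr - (2 * 1 * b + q * r) * hw - (1 * q) * hY
  have hW3 : -1 * (q * r) ^ 2 * b + 4 * (q * r) * b ^ 2 + 8 * 1 * b ^ 3 - 8 * 1 * N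
      = q ^ 3 * (N * l - 3 * r ^ 3) := by
    linear_combination N * hl - (8 * b ^ 2 - 4 * 1 * (q * r) * b + 3 * (q * r) ^ 2) * hr
  have s2 : M * b ^ 2 * (N * l - 3 * r ^ 3) = (q * r + 1 * b) *
      (4 * 1 * b * r ^ 3 * M + 3 * r ^ 2 * w
      - (q * r ^ 3 * M - b * w ^ 2) * (2 * b * w + 3 * (1 * 1) * r))
      - 3 * (1 + q * w) * r ^ 3 := by
    linear_combination (b ^ 2 * l) * hr + (q * r + 1 * b) * hc - 3 * r ^ 3 * hw
  have hG : 4 * 1 * b * ((q * r + 1 * b) *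
      (4 * 1 * b * r ^ 3 * M + 3 * r ^ 2 * w
      - (q * r ^ 3 * M - b * w ^ 2) * (2 * b * w + 3 * (1 * 1) * r))
      - 3 * (1 + q * w) * r ^ 3)
      + 4 * (16 * (1 * 1) - 2) * r * b ^ 2 * ((1 * 1) * (b * w ^ 2 - q * r ^ 3 * M) - r * w)
      = q * ((4 * 1 * b * r * (4 * 1 * b * r ^ 3 * M + 3 * r ^ 2 * w
      - (q * r ^ 3 * M - b * w ^ 2) * (2 * b * w + 3 * (1 * 1) * r))
      - 12 * 1 * b * w * r ^ 3 - 4 * b ^ 2 * r ^ 3 * M * (2 * b * w + 3 * (1 * 1) * r)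
      + 16 * 1 * b * w * r ^ 3 - 4 * (1 * 1) * (16 * (1 * 1) - 2) * r ^ 4 * b ^ 2 * M)
      + b * (1 * (q * r ^ 3 * M - b * w ^ 2)) * ((2 * b * w) ^ 2
        + (16 + 2 * (1 * 1)) * r * (2 * b * w) + (12 - 16 * (1 * 1)) * r ^ 2)) := by
    linear_combination (16 * 1 * b * r ^ 3) * hw + b * ((2 * b * w) ^ 2
        + (16 + 2 * (1 * 1)) * r * (2 * b * w) + (12 - 16 * (1 * 1)) * r ^ 2) * hY
  refine ⟨(4 * 1 * b * r * (4 * 1 * b * r ^ 3 * M + 3 * r ^ 2 * w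
      - (q * r ^ 3 * M - b * w ^ 2) * (2 * b * w + 3 * (1 * 1) * r))
      - 12 * 1 * b * w * r ^ 3 - 4 * b ^ 2 * r ^ 3 * M * (2 * b * w + 3 * (1 * 1) * r)
      + 16 * 1 * b * w * r ^ 3 - 4 * (1 * 1) * (16 * (1 * 1) - 2) * r ^ 4 * b ^ 2 * M)
      + b * (1 * (q * r ^ 3 * M - b * w ^ 2)) * ((2 * b * w) ^ 2
        + (16 + 2 * (1 * 1)) * r * (2 * b * w) + (12 - 16 * (1 * 1)) * r ^ 2), ?_⟩
  linear_combination (4 * 1 * b * (M * b ^ 2)) * hW3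
    + (4 * (16 * (1 * 1) - 2) * (q * r) * b ^ 2) * hV + (4 * 1 * b * q ^ 3) * s2 + q ^ 3 * hG

theorem k4_pm {q r w b M N l : ℤ} (hq : q ≠ 0) (hw : M * b ^ 2 - 1 = q * w)
    (e2 : b * w * (q * w + 2 * 1) = r * (q ^ 2 * r ^ 2 * M + (-1)))
    (hr : M * N = q * r + (-1) * b)
    (hl : M * (8 * b ^ 2 - 4 * (-1) * (q * r) * b + 3 * (q * r) ^ 2) - 8 * 1 = q ^ 3 * l) :
    ∃ X, M * b ^ 2 * (4 * ((1 - 16 * (1 * (-1))) * (q * r) ^ 2 * b ^ 2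
      + 8 * ((-1) - 4 * 1) * (q * r) * b ^ 3 + 8 * b ^ 4
      - 8 * (1 * (-1)) * b * N + 4 * (8 * (-1) - 1) * N * (q * r))) = q ^ 4 * X := by
  have hc : b ^ 2 * l = 4 * 1 * b * r ^ 3 * M + 3 * r ^ 2 * w
      - (q * r ^ 3 * M - b * w ^ 2) * (2 * b * w + 3 * (1 * (-1)) * r) := by
    have h1 : q ^ 3 * (b ^ 2 * l) = q ^ 3 * (4 * 1 * b * r ^ 3 * M + 3 * r ^ 2 * w
      - (q * r ^ 3 * M - b * w ^ 2) * (2 * b * w + 3 * (1 * (-1)) * r)) := by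
      linear_combination (4 * 1 * b * q - q ^ 2 * (2 * b * w + 3 * (1 * (-1)) * r)) * e2
        + (8 * b ^ 2 - 4 * (-1) * (q * r) * b + 3 * (q * r) ^ 2) * hw - b ^ 2 * hl
    exact mul_left_cancel₀ (pow_ne_zero 3 hq) h1
  have hY : 2 * b * w - (1 * (-1)) * r = q * (1 * (q * r ^ 3 * M - b * w ^ 2)) := by
    linear_combination 1 * e2
  have hV : M * (2 * 1 * N - 2 * (-1) * b ^ 3 - (q * r) * b ^ 2)
      = q ^ 2 * ((1 * (-1)) * (b * w ^ 2 - q * r ^ 3 * M) - r * w) := by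
    linear_combination (2 * 1) * hr - (2 * (-1) * b + q * r) * hw - ((-1) * q) * hY
  have hW3 : -(-1) * (q * r) ^ 2 * b + 4 * (q * r) * b ^ 2 + 8 * (-1) * b ^ 3 - 8 * 1 * N
      = q ^ 3 * (N * l - 3 * r ^ 3) := by
    linear_combination N * hl - (8 * b ^ 2 - 4 * (-1) * (q * r) * b + 3 * (q * r) ^ 2) * hr
  have s2 : M * b ^ 2 * (N * l - 3 * r ^ 3) = (q * r + (-1) * b) *
      (4 * 1 * b * r ^ 3 * M + 3 * r ^ 2 * w
      - (q * r ^ 3 * M - b * w ^ 2) * (2 * b * w + 3 * (1 * (-1)) * r))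
      - 3 * (1 + q * w) * r ^ 3 := by
    linear_combination (b ^ 2 * l) * hr + (q * r + (-1) * b) * hc - 3 * r ^ 3 * hw
  have hG : 4 * (-1) * b * ((q * r + (-1) * b) *
      (4 * 1 * b * r ^ 3 * M + 3 * r ^ 2 * w
      - (q * r ^ 3 * M - b * w ^ 2) * (2 * b * w + 3 * (1 * (-1)) * r))
      - 3 * (1 + q * w) * r ^ 3)
      + 4 * (16 * (1 * (-1)) - 2) * r * b ^ 2 * ((1 * (-1)) * (b * w ^ 2 - q * r ^ 3 * M) - r * w)
      = q * ((4 * (-1) * b * r * (4 * 1 * b * r ^ 3 * M + 3 * r ^ 2 * w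
      - (q * r ^ 3 * M - b * w ^ 2) * (2 * b * w + 3 * (1 * (-1)) * r))
      - 12 * (-1) * b * w * r ^ 3 - 4 * b ^ 2 * r ^ 3 * M * (2 * b * w + 3 * (1 * (-1)) * r)
      + 16 * 1 * b * w * r ^ 3 - 4 * (1 * (-1)) * (16 * (1 * (-1)) - 2) * r ^ 4 * b ^ 2 * M)
      + b * (1 * (q * r ^ 3 * M - b * w ^ 2)) * ((2 * b * w) ^ 2
        + (16 + 2 * (1 * (-1))) * r * (2 * b * w) + (12 - 16 * (1 * (-1))) * r ^ 2)) := by
    linear_combination (16 * 1 * b * r ^ 3) * hw + b * ((2 * b * w) ^ 2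
        + (16 + 2 * (1 * (-1))) * r * (2 * b * w) + (12 - 16 * (1 * (-1))) * r ^ 2) * hY
  refine ⟨(4 * (-1) * b * r * (4 * 1 * b * r ^ 3 * M + 3 * r ^ 2 * w
      - (q * r ^ 3 * M - b * w ^ 2) * (2 * b * w + 3 * (1 * (-1)) * r))
      - 12 * (-1) * b * w * r ^ 3 - 4 * b ^ 2 * r ^ 3 * M * (2 * b * w + 3 * (1 * (-1)) * r)
      + 16 * 1 * b * w * r ^ 3 - 4 * (1 * (-1)) * (16 * (1 * (-1)) - 2) * r ^ 4 * b ^ 2 * M)
      + b * (1 * (q * r ^ 3 * M - b * w ^ 2)) * ((2 * b * w) ^ 2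
        + (16 + 2 * (1 * (-1))) * r * (2 * b * w) + (12 - 16 * (1 * (-1))) * r ^ 2), ?_⟩
  linear_combination (4 * (-1) * b * (M * b ^ 2)) * hW3
    + (4 * (16 * (1 * (-1)) - 2) * (q * r) * b ^ 2) * hV + (4 * (-1) * b * q ^ 3) * s2 + q ^ 3 * hG

theorem k4_mp {q r w b M N l : ℤ} (hq : q ≠ 0) (hw : M * b ^ 2 - (-1) = q * w)
    (e2 : b * w * (q * w + 2 * (-1)) = r * (q ^ 2 * r ^ 2 * M + 1))
    (hr : M * N = q * r + 1 * b)
    (hl : M * (8 * b ^ 2 - 4 * 1 * (q * r) * b + 3 * (q * r) ^ 2) - 8 * (-1) = q ^ 3 * l) :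
    ∃ X, M * b ^ 2 * (4 * ((1 - 16 * ((-1) * 1)) * (q * r) ^ 2 * b ^ 2
      + 8 * (1 - 4 * (-1)) * (q * r) * b ^ 3 + 8 * b ^ 4
      - 8 * ((-1) * 1) * b * N + 4 * (8 * 1 - (-1)) * N * (q * r))) = q ^ 4 * X := by
  have hc : b ^ 2 * l = 4 * (-1) * b * r ^ 3 * M + 3 * r ^ 2 * w
      - (q * r ^ 3 * M - b * w ^ 2) * (2 * b * w + 3 * ((-1) * 1) * r) := by
    have h1 : q ^ 3 * (b ^ 2 * l) = q ^ 3 * (4 * (-1) * b * r ^ 3 * M + 3 * r ^ 2 * w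
      - (q * r ^ 3 * M - b * w ^ 2) * (2 * b * w + 3 * ((-1) * 1) * r)) := by
      linear_combination (4 * (-1) * b * q - q ^ 2 * (2 * b * w + 3 * ((-1) * 1) * r)) * e2
        + (8 * b ^ 2 - 4 * 1 * (q * r) * b + 3 * (q * r) ^ 2) * hw - b ^ 2 * hl
    exact mul_left_cancel₀ (pow_ne_zero 3 hq) h1
  have hY : 2 * b * w - ((-1) * 1) * r = q * ((-1) * (q * r ^ 3 * M - b * w ^ 2)) := by
    linear_combination (-1) * e2
  have hV : M * (2 * (-1) * N - 2 * 1 * b ^ 3 - (q * r) * b ^ 2)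
      = q ^ 2 * (((-1) * 1) * (b * w ^ 2 - q * r ^ 3 * M) - r * w) := by
    linear_combination (2 * (-1)) * hr - (2 * 1 * b + q * r) * hw - (1 * q) * hY
  have hW3 : -1 * (q * r) ^ 2 * b + 4 * (q * r) * b ^ 2 + 8 * 1 * b ^ 3 - 8 * (-1) * N
      = q ^ 3 * (N * l - 3 * r ^ 3) := by
    linear_combination N * hl - (8 * b ^ 2 - 4 * 1 * (q * r) * b + 3 * (q * r) ^ 2) * hr
  have s2 : M * b ^ 2 * (N * l - 3 * r ^ 3) = (q * r + 1 * b) *
      (4 * (-1) * b * r ^ 3 * M + 3 * r ^ 2 * w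
      - (q * r ^ 3 * M - b * w ^ 2) * (2 * b * w + 3 * ((-1) * 1) * r))
      - 3 * ((-1) + q * w) * r ^ 3 := by
    linear_combination (b ^ 2 * l) * hr + (q * r + 1 * b) * hc - 3 * r ^ 3 * hw
  have hG : 4 * 1 * b * ((q * r + 1 * b) *
      (4 * (-1) * b * r ^ 3 * M + 3 * r ^ 2 * w
      - (q * r ^ 3 * M - b * w ^ 2) * (2 * b * w + 3 * ((-1) * 1) * r))
      - 3 * ((-1) + q * w) * r ^ 3)
      + 4 * (16 * ((-1) * 1) - 2) * r * b ^ 2 * (((-1) * 1) * (b * w ^ 2 - q * r ^ 3 * M) - r * w)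
      = q * ((4 * 1 * b * r * (4 * (-1) * b * r ^ 3 * M + 3 * r ^ 2 * w
      - (q * r ^ 3 * M - b * w ^ 2) * (2 * b * w + 3 * ((-1) * 1) * r))
      - 12 * 1 * b * w * r ^ 3 - 4 * b ^ 2 * r ^ 3 * M * (2 * b * w + 3 * ((-1) * 1) * r)
      + 16 * (-1) * b * w * r ^ 3 - 4 * ((-1) * 1) * (16 * ((-1) * 1) - 2) * r ^ 4 * b ^ 2 * M)
      + b * ((-1) * (q * r ^ 3 * M - b * w ^ 2)) * ((2 * b * w) ^ 2
        + (16 + 2 * ((-1) * 1)) * r * (2 * b * w) + (12 - 16 * ((-1) * 1)) * r ^ 2)) := by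
    linear_combination (16 * (-1) * b * r ^ 3) * hw + b * ((2 * b * w) ^ 2
        + (16 + 2 * ((-1) * 1)) * r * (2 * b * w) + (12 - 16 * ((-1) * 1)) * r ^ 2) * hY
  refine ⟨(4 * 1 * b * r * (4 * (-1) * b * r ^ 3 * M + 3 * r ^ 2 * w
      - (q * r ^ 3 * M - b * w ^ 2) * (2 * b * w + 3 * ((-1) * 1) * r))
      - 12 * 1 * b * w * r ^ 3 - 4 * b ^ 2 * r ^ 3 * M * (2 * b * w + 3 * ((-1) * 1) * r)
      + 16 * (-1) * b * w * r ^ 3 - 4 * ((-1) * 1) * (16 * ((-1) * 1) - 2) * r ^ 4 * b ^ 2 * M)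
      + b * ((-1) * (q * r ^ 3 * M - b * w ^ 2)) * ((2 * b * w) ^ 2
        + (16 + 2 * ((-1) * 1)) * r * (2 * b * w) + (12 - 16 * ((-1) * 1)) * r ^ 2), ?_⟩
  linear_combination (4 * 1 * b * (M * b ^ 2)) * hW3
    + (4 * (16 * ((-1) * 1) - 2) * (q * r) * b ^ 2) * hV + (4 * 1 * b * q ^ 3) * s2 + q ^ 3 * hG

theorem k4_mm {q r w b M N l : ℤ} (hq : q ≠ 0) (hw : M * b ^ 2 - (-1) = q * w)
    (e2 : b * w * (q * w + 2 * (-1)) = r * (q ^ 2 * r ^ 2 * M + (-1)))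
    (hr : M * N = q * r + (-1) * b)
    (hl : M * (8 * b ^ 2 - 4 * (-1) * (q * r) * b + 3 * (q * r) ^ 2) - 8 * (-1) = q ^ 3 * l) :
    ∃ X, M * b ^ 2 * (4 * ((1 - 16 * ((-1) * (-1))) * (q * r) ^ 2 * b ^ 2
      + 8 * ((-1) - 4 * (-1)) * (q * r) * b ^ 3 + 8 * b ^ 4
      - 8 * ((-1) * (-1)) * b * N + 4 * (8 * (-1) - (-1)) * N * (q * r))) = q ^ 4 * X := by
  have hc : b ^ 2 * l = 4 * (-1) * b * r ^ 3 * M + 3 * r ^ 2 * w
      - (q * r ^ 3 * M - b * w ^ 2) * (2 * b * w + 3 * ((-1) * (-1)) * r) := by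
    have h1 : q ^ 3 * (b ^ 2 * l) = q ^ 3 * (4 * (-1) * b * r ^ 3 * M + 3 * r ^ 2 * w
      - (q * r ^ 3 * M - b * w ^ 2) * (2 * b * w + 3 * ((-1) * (-1)) * r)) := by
      linear_combination (4 * (-1) * b * q - q ^ 2 * (2 * b * w + 3 * ((-1) * (-1)) * r)) * e2
        + (8 * b ^ 2 - 4 * (-1) * (q * r) * b + 3 * (q * r) ^ 2) * hw - b ^ 2 * hl
    exact mul_left_cancel₀ (pow_ne_zero 3 hq) h1
  have hY : 2 * b * w - ((-1) * (-1)) * r = q * ((-1) * (q * r ^ 3 * M - b * w ^ 2)) := by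
    linear_combination (-1) * e2
  have hV : M * (2 * (-1) * N - 2 * (-1) * b ^ 3 - (q * r) * b ^ 2)
      = q ^ 2 * (((-1) * (-1)) * (b * w ^ 2 - q * r ^ 3 * M) - r * w) := by
    linear_combination (2 * (-1)) * hr - (2 * (-1) * b + q * r) * hw - ((-1) * q) * hY
  have hW3 : -(-1) * (q * r) ^ 2 * b + 4 * (q * r) * b ^ 2 + 8 * (-1) * b ^ 3 - 8 * (-1) * N
      = q ^ 3 * (N * l - 3 * r ^ 3) := by
    linear_combination N * hl - (8 * b ^ 2 - 4 * (-1) * (q * r) * b + 3 * (q * r) ^ 2) * hr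
  have s2 : M * b ^ 2 * (N * l - 3 * r ^ 3) = (q * r + (-1) * b) *
      (4 * (-1) * b * r ^ 3 * M + 3 * r ^ 2 * w
      - (q * r ^ 3 * M - b * w ^ 2) * (2 * b * w + 3 * ((-1) * (-1)) * r))
      - 3 * ((-1) + q * w) * r ^ 3 := by
    linear_combination (b ^ 2 * l) * hr + (q * r + (-1) * b) * hc - 3 * r ^ 3 * hw
  have hG : 4 * (-1) * b * ((q * r + (-1) * b) *
      (4 * (-1) * b * r ^ 3 * M + 3 * r ^ 2 * w
      - (q * r ^ 3 * M - b * w ^ 2) * (2 * b * w + 3 * ((-1) * (-1)) * r))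
      - 3 * ((-1) + q * w) * r ^ 3)
      + 4 * (16 * ((-1) * (-1)) - 2) * r * b ^ 2 * (((-1) * (-1)) * (b * w ^ 2 - q * r ^ 3 * M) - r * w)
      = q * ((4 * (-1) * b * r * (4 * (-1) * b * r ^ 3 * M + 3 * r ^ 2 * w
      - (q * r ^ 3 * M - b * w ^ 2) * (2 * b * w + 3 * ((-1) * (-1)) * r))
      - 12 * (-1) * b * w * r ^ 3 - 4 * b ^ 2 * r ^ 3 * M * (2 * b * w + 3 * ((-1) * (-1)) * r)
      + 16 * (-1) * b * w * r ^ 3 - 4 * ((-1) * (-1)) * (16 * ((-1) * (-1)) - 2) * r ^ 4 * b ^ 2 * M)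
      + b * ((-1) * (q * r ^ 3 * M - b * w ^ 2)) * ((2 * b * w) ^ 2
        + (16 + 2 * ((-1) * (-1))) * r * (2 * b * w) + (12 - 16 * ((-1) * (-1))) * r ^ 2)) := by
    linear_combination (16 * (-1) * b * r ^ 3) * hw + b * ((2 * b * w) ^ 2
        + (16 + 2 * ((-1) * (-1))) * r * (2 * b * w) + (12 - 16 * ((-1) * (-1))) * r ^ 2) * hY
  refine ⟨(4 * (-1) * b * r * (4 * (-1) * b * r ^ 3 * M + 3 * r ^ 2 * w
      - (q * r ^ 3 * M - b * w ^ 2) * (2 * b * w + 3 * ((-1) * (-1)) * r))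
      - 12 * (-1) * b * w * r ^ 3 - 4 * b ^ 2 * r ^ 3 * M * (2 * b * w + 3 * ((-1) * (-1)) * r)
      + 16 * (-1) * b * w * r ^ 3 - 4 * ((-1) * (-1)) * (16 * ((-1) * (-1)) - 2) * r ^ 4 * b ^ 2 * M)
      + b * ((-1) * (q * r ^ 3 * M - b * w ^ 2)) * ((2 * b * w) ^ 2
        + (16 + 2 * ((-1) * (-1))) * r * (2 * b * w) + (12 - 16 * ((-1) * (-1))) * r ^ 2), ?_⟩
  linear_combination (4 * (-1) * b * (M * b ^ 2)) * hW3
    + (4 * (16 * ((-1) * (-1)) - 2) * (q * r) * b ^ 2) * hV + (4 * (-1) * b * q ^ 3) * s2 + q ^ 3 * hG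


theorem fourDiv {q r b M N σ δ : ℤ} (hσ : σ = 1 ∨ σ = -1) (hδ : δ = 1 ∨ δ = -1) (hq : q ≠ 0)
    (hqu : q ∣ M * b ^ 2 - δ) (hqb : IsCoprime q b)
    (hr : M * N = q * r + σ * b)
    (hrel : b * ((M * b ^ 2 - 1) * (M * b ^ 2 + 1)) = (q * r) * ((q * r) ^ 2 * M + σ)) :
    q ^ 4 ∣ 4 * ((1 - 16 * (δ * σ)) * (q * r) ^ 2 * b ^ 2 + 8 * (σ - 4 * δ) * (q * r) * b ^ 3
      + 8 * b ^ 4 - 8 * (δ * σ) * b * N + 4 * (8 * σ - δ) * N * (q * r)) := by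
  obtain ⟨l, hl⟩ := cubeDiv (A := q * r) hσ hδ hq ⟨r, rfl⟩ hqu hqb hrel
  obtain ⟨w, hw⟩ := hqu
  have e2 : b * w * (q * w + 2 * δ) = r * (q ^ 2 * r ^ 2 * M + σ) := by
    have h1 : q * (b * w * (q * w + 2 * δ)) = q * (r * (q ^ 2 * r ^ 2 * M + σ)) := by
      rcases hδ with hd | hd <;> subst hd
      · have h2 : M * b ^ 2 + 1 = q * w + 2 := by linear_combination hw
        have h3 : M * b ^ 2 - 1 = q * w := hw
        rw [h2, h3] at hrel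
        linear_combination hrel
      · have h2 : M * b ^ 2 + 1 = q * w := by linear_combination hw
        have h3 : M * b ^ 2 - 1 = q * w - 2 := by linear_combination hw
        rw [h2, h3] at hrel
        linear_combination hrel
    exact mul_left_cancel₀ hq h1
  have hcop : IsCoprime q (M * b ^ 2) := by
    rcases hδ with hd | hd <;> subst hd
    · exact ⟨-w, 1, by linear_combination hw⟩
    · exact ⟨w, -1, by linear_combination -hw⟩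
  have hX : ∃ X, M * b ^ 2 * (4 * ((1 - 16 * (δ * σ)) * (q * r) ^ 2 * b ^ 2
      + 8 * (σ - 4 * δ) * (q * r) * b ^ 3 + 8 * b ^ 4 - 8 * (δ * σ) * b * N
      + 4 * (8 * σ - δ) * N * (q * r))) = q ^ 4 * X := by
    rcases hδ with hd | hd <;> subst hd <;> rcases hσ with hs | hs <;> subst hs
    · exact k4_pp hq hw e2 hr hl
    · exact k4_pm hq hw e2 hr hl
    · exact k4_mp hq hw e2 hr hl
    · exact k4_mm hq hw e2 hr hl
  exact (IsCoprime.pow_left hcop).dvd_of_dvd_mul_left hX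

variable {b M N A σ : ℤ}

theorem R.size4 (h : R b M N A σ) {q T δ : ℤ} (hδ : δ = 1 ∨ δ = -1) (hq : 1 ≤ q) (hT : 1 ≤ T)
    (hqT : q * T = A) (hqu : q ∣ M * b ^ 2 - δ) :
    A ≤ 12 * (T ^ 2 * b) ∧ M * b ^ 2 ≤ 1732 * T ^ 6 := by
  have hrel := h.rel
  obtain ⟨hb, hM, hN, hA, hσ, bM, bA, r, e⟩ := h
  have hqA : q ∣ A := ⟨T, hqT.symm⟩
  have hqb : IsCoprime q b := (bA.symm).of_isCoprime_of_dvd_left hqA
  rw [← hqT] at hrel r
  obtain ⟨Z, hZ⟩ := fourDiv hσ hδ (by omega) hqu hqb r hrel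
  rw [hqT] at hZ r
  have hb4 : 4 ≤ b ^ 2 := by nlinarith
  have hNA : N ≤ A + b := by
    have h1 : N ≤ M * N := by nlinarith
    rcases hσ with hs | hs <;> subst hs <;> linarith
  have ht : 1 ≤ T ^ 2 := one_le_pow₀ hT
  set W := (1 - 16 * (δ * σ)) * A ^ 2 * b ^ 2 + 8 * (σ - 4 * δ) * A * b ^ 3 + 8 * b ^ 4
    - 8 * (δ * σ) * b * N + 4 * (8 * σ - δ) * N * A with hW
  have key : (T ^ 2) ^ 2 * (4 * W) = A ^ 4 * Z := by
    rw [hZ, ← hqT]; ring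
  have p1 : 0 ≤ A ^ 2 * b ^ 2 := by positivity
  have p2 : 0 ≤ A * b ^ 3 := by positivity
  have p3 : 0 ≤ b ^ 4 := by positivity
  have p4 : 0 ≤ b * N := by positivity
  have p5 : 0 ≤ N * A := by positivity
  have claim : A ≤ 12 * (T ^ 2 * b) := by
    by_contra hcon
    push Not at hcon
    have hAb : 12 * b < A := by nlinarith
    have hN12 : 12 * N ≤ 13 * A := by linarith
    by_cases hD : W = 0
    · have g1 : 12 * (A * b ^ 3) ≤ A ^ 2 * b ^ 2 := by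
        have : 0 < A * b ^ 2 := by positivity
        nlinarith
      have g2 : 12 * b ^ 4 ≤ A * b ^ 3 := by
        have : 0 < b ^ 3 := by positivity
        nlinarith
      have g3 : 12 * (b * N) ≤ 13 * (A * b) := by nlinarith
      have g4 : 48 * (A * b) ≤ A ^ 2 * b ^ 2 := by
        have k1 : 24 < A := by linarith
        have k2 : 48 ≤ A * b := by nlinarith
        have k3 : 0 < A * b := by positivity
        nlinarith
      have g5 : 12 * (N * A) ≤ 13 * A ^ 2 := by nlinarith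
      have g6 : 4 * A ^ 2 ≤ A ^ 2 * b ^ 2 := by
        have : 0 < A ^ 2 := by positivity
        nlinarith
      have p6 : 0 < A ^ 2 * b ^ 2 := by positivity
      rw [hW] at hD
      rcases hσ with hs | hs <;> subst hs <;> rcases hδ with hd | hd <;> subst hd <;>
        norm_num at hD <;> linarith
    · have hZ0 : Z ≠ 0 := by
        rintro rfl
        rw [mul_zero] at key
        rcases mul_eq_zero.mp key with h1 | h1
        · have : 0 < (T ^ 2) ^ 2 := by positivity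
          omega
        · omega
      have h1 : A ^ 4 ≤ |A ^ 4 * Z| := by
        rw [abs_mul, abs_of_nonneg (show (0:ℤ) ≤ A ^ 4 by positivity)]
        have h2 : 1 ≤ |Z| := Int.one_le_abs hZ0
        have h3 : 0 < A ^ 4 := by positivity
        nlinarith
      have h2 : |4 * W| ≤ 4 * (17 * (A ^ 2 * b ^ 2) + 40 * (A * b ^ 3) + 8 * b ^ 4
          + 8 * (b * N) + 36 * (N * A)) := by
        rw [hW, abs_le]
        rcases hσ with hs | hs <;> subst hs <;> rcases hδ with hd | hd <;> subst hd <;>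
          constructor <;> norm_num <;> linarith
      rw [← key, abs_mul, abs_of_nonneg (show (0:ℤ) ≤ (T ^ 2) ^ 2 by positivity)] at h1
      have h3 : A ^ 4 ≤ (T ^ 2) ^ 2 * (4 * (17 * (A ^ 2 * b ^ 2) + 40 * (A * b ^ 3) + 8 * b ^ 4
          + 8 * (b * N) + 36 * (N * A))) :=
        h1.trans (mul_le_mul_of_nonneg_left h2 (by positivity))
      clear h1 h2 key hZ hW hD
      generalize T ^ 2 = t at *
      have hs0 : 0 < t * b := by positivity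
      have q2 : (12 * (t * b)) ^ 2 ≤ A ^ 2 := pow_le_pow_left₀ (by positivity) hcon.le 2
      have q3 : (12 * (t * b)) ^ 3 ≤ A ^ 3 := pow_le_pow_left₀ (by positivity) hcon.le 3
      have q4 : (12 * (t * b)) ^ 4 ≤ A ^ 4 := pow_le_pow_left₀ (by positivity) hcon.le 4
      have t23 : t ^ 2 ≤ t ^ 3 := pow_le_pow_right₀ ht (by norm_num)
      have t24 : t ^ 2 ≤ t ^ 4 := pow_le_pow_right₀ ht (by norm_num)
      have f1 : 144 * (t ^ 2 * (A ^ 2 * b ^ 2)) ≤ A ^ 4 := by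
        have : A ^ 2 * (12 * (t * b)) ^ 2 ≤ A ^ 2 * A ^ 2 :=
          mul_le_mul_of_nonneg_left q2 (by positivity)
        nlinarith
      have f2 : 1728 * (t ^ 2 * (A * b ^ 3)) ≤ A ^ 4 := by
        have k1 : A * (12 * (t * b)) ^ 3 ≤ A * A ^ 3 :=
          mul_le_mul_of_nonneg_left q3 (by omega)
        have k2 : t ^ 2 * (A * b ^ 3) ≤ t ^ 3 * (A * b ^ 3) := mul_le_mul_of_nonneg_right t23 p2
        nlinarith
      have f3 : 20736 * (t ^ 2 * b ^ 4) ≤ A ^ 4 := by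
        have k2 : t ^ 2 * b ^ 4 ≤ t ^ 4 * b ^ 4 := mul_le_mul_of_nonneg_right t24 p3
        nlinarith
      have a24 : 24 ≤ A := by nlinarith
      have f4 : 576 * (t ^ 2 * A ^ 2) ≤ A ^ 4 := by
        have k1 : 4 * t ^ 2 ≤ t ^ 2 * b ^ 2 := by
          have : 0 < t ^ 2 := by positivity
          nlinarith
        have k2 : 576 * t ^ 2 ≤ A ^ 2 := by nlinarith
        have k3 : A ^ 2 * (576 * t ^ 2) ≤ A ^ 2 * A ^ 2 :=
          mul_le_mul_of_nonneg_left k2 (by positivity)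
        nlinarith
      have f5 : 12 * (t ^ 2 * (N * A)) ≤ 13 * (t ^ 2 * A ^ 2) := by
        have k1 : 0 ≤ t ^ 2 * A := by positivity
        nlinarith
      have f6 : 12 * (t ^ 2 * (b * N)) ≤ 13 * (t ^ 2 * (A * b)) := by
        have k1 : 0 ≤ t ^ 2 * b := by positivity
        nlinarith
      have f7 : 6912 * (t ^ 2 * (A * b)) ≤ A ^ 4 := by
        have k1 : 2 * (t ^ 2 * b) ≤ t ^ 2 * b ^ 2 := by
          have : 0 < t ^ 2 * b := by positivity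
          nlinarith
        have k2 : 288 * (t ^ 2 * b) ≤ A ^ 2 := by nlinarith
        have k3 : A ^ 2 * (288 * (t ^ 2 * b)) ≤ A ^ 2 * A ^ 2 :=
          mul_le_mul_of_nonneg_left k2 (by positivity)
        have k4 : 24 * (t ^ 2 * (A * b)) ≤ A ^ 2 * (t ^ 2 * b) := by
          have : 0 ≤ t ^ 2 * b * A := by positivity
          nlinarith
        nlinarith
      have hA4 : 0 < A ^ 4 := by positivity
      linarith
  refine ⟨claim, ?_⟩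
  have h1 : A ^ 3 ≤ (12 * (T ^ 2 * b)) ^ 3 := pow_le_pow_left₀ (by omega) claim 3
  have h2 : M * b ^ 5 ≤ A ^ 3 + N := by
    rcases hσ with hs | hs <;> subst hs <;> linarith
  have h3 : 13 * (T ^ 2 * b) ≤ 4 * (T ^ 6 * b ^ 3) := by
    have k1 : T ^ 2 ≤ T ^ 6 := pow_le_pow_right₀ hT (by norm_num)
    have k2 : 4 * b ≤ b ^ 3 := by nlinarith
    have k3 : T ^ 2 * (4 * b) ≤ T ^ 6 * b ^ 3 := mul_le_mul k1 k2 (by omega) (by positivity)
    have k4 : 0 < T ^ 2 * b := by positivity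
    nlinarith
  have h4 : A + b ≤ 13 * (T ^ 2 * b) := by
    have : b ≤ T ^ 2 * b := by nlinarith
    linarith
  have h5 : b ^ 3 * (M * b ^ 2) ≤ b ^ 3 * (1732 * T ^ 6) := by nlinarith
  exact le_of_mul_le_mul_left h5 (by positivity)

end H98Q
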