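import Pool.Agent.H98Q.Size

namespace H98Q

variable {b M N : ℤ}

theorem P.toR (h : P b M N) (hb2 : 2 ≤ b) : R b M N (M * N - b) 1 := by
  have hA := h.A0
  have hcop := h.copA
  have hN := h.hN
  have hM := h.hM
  refine ⟨hb2, h.hM, h.hN, ?_, Or.inl rfl, h.bM, hcop, by ring, by rw [h.e]; ring⟩
  rcases eq_or_lt_of_le hA with h0 | h0
  · exfalso
    have e := h.e
    rw [← h0] at e
    have h1 : b ^ 2 ≤ b ^ 5 := pow_le_pow_right₀ (by omega) (by norm_num)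
    have h2 : b ^ 5 ≤ M * b ^ 5 := by
      have : 0 < b ^ 5 := by positivity
      nlinarith
    have h3 : N ≤ M * N := by nlinarith
    nlinarith
  · omega

theorem Q.toR (h : Q b M N) (hb2 : 2 ≤ b) : R b M N (M * N + b) (-1) := by
  have hcop := h.copA
  have hN := h.hN
  have hM := h.hM
  have hMN : 1 ≤ M * N := by nlinarith
  exact ⟨hb2, h.hM, h.hN, by omega, Or.inr rfl, h.bM, hcop, by ring, by rw [h.e]; ring⟩

theorem gcdA {A c u : ℤ} (hc : IsCoprime c u) : Int.gcd u (-(A * c)) = Int.gcd A u := by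
  have h1 : Nat.Coprime c.natAbs u.natAbs := Int.isCoprime_iff_gcd_eq_one.mp hc
  rw [Int.gcd_neg, Int.gcd_comm]
  change Nat.gcd (A * c).natAbs u.natAbs = Nat.gcd A.natAbs u.natAbs
  rw [Int.natAbs_mul]
  exact Nat.Coprime.gcd_mul_right_cancel _ h1

theorem copm (b M : ℤ) : IsCoprime (b * M) (M * b ^ 2 - 1) := ⟨b, -1, by ring⟩
theorem copp (b M : ℤ) : IsCoprime (b * M) (M * b ^ 2 + 1) := ⟨-b, 1, by ring⟩

theorem P.gm {x y : ℤ} (hx : x = b ^ 2 * M) (hy : y = -((M * N - b) * (b * M))) :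
    Int.gcd (x - 1) y = Int.gcd (M * N - b) (M * b ^ 2 - 1) := by
  rw [hy, show x - 1 = M * b ^ 2 - 1 by rw [hx]; ring]
  exact gcdA (copm b M)

theorem P.gp {x y : ℤ} (hx : x = b ^ 2 * M) (hy : y = -((M * N - b) * (b * M))) :
    Int.gcd (x + 1) y = Int.gcd (M * N - b) (M * b ^ 2 + 1) := by
  rw [hy, show x + 1 = M * b ^ 2 + 1 by rw [hx]; ring]
  exact gcdA (copp b M)

theorem Q.gm {x y : ℤ} (hx : x = -(b ^ 2 * M)) (hy : y = -((M * N + b) * (b * M))) :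
    Int.gcd (x - 1) y = Int.gcd (M * N + b) (M * b ^ 2 + 1) := by
  rw [hy, show x - 1 = -(M * b ^ 2 + 1) by rw [hx]; ring, Int.neg_gcd]
  exact gcdA (copp b M)

theorem Q.gp {x y : ℤ} (hx : x = -(b ^ 2 * M)) (hy : y = -((M * N + b) * (b * M))) :
    Int.gcd (x + 1) y = Int.gcd (M * N + b) (M * b ^ 2 - 1) := by
  rw [hy, show x + 1 = -(M * b ^ 2 - 1) by rw [hx]; ring, Int.neg_gcd]
  exact gcdA (copm b M)

variable {A σ : ℤ}

theorem R.bounds (h : R b M N A σ) :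
    (M * b ^ 2 ≤ 515 * (Int.gcd A (M * b ^ 2 - 1) : ℤ) ^ 9 ∧
      (Int.gcd A (M * b ^ 2 - 1) = 1 → A ≤ 8 * b ∧ M * b ^ 2 ≤ 515)) ∧
    (M * b ^ 2 ≤ 515 * (Int.gcd A (M * b ^ 2 + 1) : ℤ) ^ 9 ∧
      (Int.gcd A (M * b ^ 2 + 1) = 1 → A ≤ 8 * b ∧ M * b ^ 2 ≤ 515)) := by
  have hf := h.fac
  have hA := h.hA
  have h1 : 1 ≤ (Int.gcd A (M * b ^ 2 - 1) : ℤ) := by
    have := Int.gcd_pos_of_ne_zero_left (M * b ^ 2 - 1) (show A ≠ 0 by omega)
    omega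
  have h2 : 1 ≤ (Int.gcd A (M * b ^ 2 + 1) : ℤ) := by
    have := Int.gcd_pos_of_ne_zero_left (M * b ^ 2 + 1) (show A ≠ 0 by omega)
    omega
  have s1 := h.size (q := (Int.gcd A (M * b ^ 2 + 1) : ℤ)) (T := (Int.gcd A (M * b ^ 2 - 1) : ℤ))
    (δ := -1) (Or.inr rfl) h2 h1 (by rw [mul_comm]; exact hf)
    (by rw [sub_neg_eq_add]; exact Int.gcd_dvd_right ..)
  have s2 := h.size (q := (Int.gcd A (M * b ^ 2 - 1) : ℤ)) (T := (Int.gcd A (M * b ^ 2 + 1) : ℤ))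
    (δ := 1) (Or.inl rfl) h1 h2 hf (Int.gcd_dvd_right ..)
  refine ⟨⟨s1.2, fun h3 => ?_⟩, ⟨s2.2, fun h3 => ?_⟩⟩
  · rw [h3] at s1
    norm_num at s1
    exact s1
  · rw [h3] at s2
    norm_num at s2
    exact s2

theorem P.small (h : P b M N) (hA : M * N - b ≤ 8 * b) (hx : M * b ^ 2 ≤ 515) :
    b = 1 ∨ M = 1 := by
  by_contra hcon
  push Not at hcon
  have hb := h.hb
  have hM := h.hM
  have hN := h.hN
  have e := h.e
  have hA0 := h.A0
  have hb2 : 2 ≤ b := by omega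
  have hM2 : 2 ≤ M := by omega
  obtain ⟨b', rfl⟩ := Int.eq_ofNat_of_zero_le (show 0 ≤ b by omega)
  obtain ⟨M', rfl⟩ := Int.eq_ofNat_of_zero_le (show 0 ≤ M by omega)
  obtain ⟨N', rfl⟩ := Int.eq_ofNat_of_zero_le (show 0 ≤ N by omega)
  have hb2' : 2 ≤ b' := by omega
  have hM2' : 2 ≤ M' := by omega
  have hN' : 1 ≤ N' := by omega
  have hx' : M' * b' ^ 2 ≤ 515 := by exact_mod_cast hx
  have hb3 : b' < 23 := by
    by_contra hc
    push Not at hc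
    have : 23 ^ 2 ≤ b' ^ 2 := Nat.pow_le_pow_left hc 2
    nlinarith
  have hM3 : M' < 130 := by
    by_contra hc
    push Not at hc
    have : 2 ^ 2 ≤ b' ^ 2 := Nat.pow_le_pow_left hb2' 2
    nlinarith
  have hMN : M' * N' ≤ 9 * b' := by
    have : ((M' * N' : ℕ) : ℤ) ≤ ((9 * b' : ℕ) : ℤ) := by push_cast; linarith
    exact_mod_cast this
  have hbM : b' ≤ M' * N' := by
    have : ((b' : ℕ) : ℤ) ≤ ((M' * N' : ℕ) : ℤ) := by push_cast; linarith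
    exact_mod_cast this
  have hmem : N' ∈ List.range (9 * b' / M' + 1) := by
    rw [List.mem_range]
    have : N' ≤ 9 * b' / M' := (Nat.le_div_iff_mul_le (by omega)).mpr (by rw [mul_comm]; exact hMN)
    omega
  have h1 := (chkPP ⟨b', hb3⟩ ⟨M', hM3⟩ hb2' hM2' hx' N' hmem hN').1
  apply h1
  have h2 : (((M' * N' - b') ^ 3 + N' : ℕ) : ℤ) = ((M' * b' ^ 5 : ℕ) : ℤ) := by
    push_cast [Nat.cast_sub hbM]
    linarith
  exact_mod_cast h2

theorem Q.small (h : Q b M N) (hA : M * N + b ≤ 8 * b) (hx : M * b ^ 2 ≤ 515) :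
    b = 1 ∨ M = 1 := by
  by_contra hcon
  push Not at hcon
  have hb := h.hb
  have hM := h.hM
  have hN := h.hN
  have e := h.e
  have hb2 : 2 ≤ b := by omega
  have hM2 : 2 ≤ M := by omega
  obtain ⟨b', rfl⟩ := Int.eq_ofNat_of_zero_le (show 0 ≤ b by omega)
  obtain ⟨M', rfl⟩ := Int.eq_ofNat_of_zero_le (show 0 ≤ M by omega)
  obtain ⟨N', rfl⟩ := Int.eq_ofNat_of_zero_le (show 0 ≤ N by omega)
  have hb2' : 2 ≤ b' := by omega
  have hM2' : 2 ≤ M' := by omega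
  have hN' : 1 ≤ N' := by omega
  have hx' : M' * b' ^ 2 ≤ 515 := by exact_mod_cast hx
  have hb3 : b' < 23 := by
    by_contra hc
    push Not at hc
    have : 23 ^ 2 ≤ b' ^ 2 := Nat.pow_le_pow_left hc 2
    nlinarith
  have hM3 : M' < 130 := by
    by_contra hc
    push Not at hc
    have : 2 ^ 2 ≤ b' ^ 2 := Nat.pow_le_pow_left hb2' 2
    nlinarith
  have hMN : M' * N' ≤ 9 * b' := by
    have : ((M' * N' : ℕ) : ℤ) ≤ ((9 * b' : ℕ) : ℤ) := by push_cast; linarith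
    exact_mod_cast this
  have hmem : N' ∈ List.range (9 * b' / M' + 1) := by
    rw [List.mem_range]
    have : N' ≤ 9 * b' / M' := (Nat.le_div_iff_mul_le (by omega)).mpr (by rw [mul_comm]; exact hMN)
    omega
  have h1 := (chkPP ⟨b', hb3⟩ ⟨M', hM3⟩ hb2' hM2' hx' N' hmem hN').2
  apply h1
  have h2 : (((M' * N' + b') ^ 3 : ℕ) : ℤ) = ((M' * b' ^ 5 + N' : ℕ) : ℤ) := by
    push_cast
    linarith
  exact_mod_cast h2

end H98Q
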