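import Pool.Agent.H98Q.Roots

namespace H98Q

variable {b M N : ℤ}

/-- the seven known solutions -/
theorem P.primepow {x y : ℤ} {p k : ℕ} (h : P b M N) (hp : p.Prime) (hx : x = b ^ 2 * M)
    (hy : y = -((M * N - b) * (b * M)))
    (hpk : x.natAbs = p ^ k ∨ y.natAbs = p ^ k ∨ (y - x).natAbs = p ^ k) : b = 1 ∨ M = 1 := by
  have hb := h.hb
  have hM := h.hM
  have hN := h.hN
  have hA := h.A0
  have hb2 : 1 ≤ b ^ 2 := one_le_pow₀ hb
  rcases hpk with h1 | h1 | h1
  · rcases pp_int hp h1 hb2 (by omega) (Or.inl hx) (IsCoprime.pow_left h.bM) with h2 | h2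
    · left; nlinarith
    · right; exact h2
  · rcases pp_int hp h1 hb (v := (M * N - b) * M) (by positivity)
      (Or.inr (by rw [hy]; ring)) (IsCoprime.mul_right h.copA h.bM) with h2 | h2
    · left; exact h2
    · right
      rcases Int.eq_one_or_neg_one_of_mul_eq_one (by rw [mul_comm] at h2; exact h2) with h3 | h3
      · exact h3
      · omega
  · rcases pp_int hp h1 hb (v := M * (M * N)) (by positivity)
      (Or.inr (by rw [hy, hx]; ring)) (IsCoprime.mul_right h.bM (IsCoprime.mul_right h.bM h.bN))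
      with h2 | h2
    · left; exact h2
    · right
      rcases Int.eq_one_or_neg_one_of_mul_eq_one h2 with h3 | h3
      · exact h3
      · omega

theorem Q.primepow {x y : ℤ} {p k : ℕ} (h : Q b M N) (hp : p.Prime) (hx : x = -(b ^ 2 * M))
    (hy : y = -((M * N + b) * (b * M)))
    (hpk : x.natAbs = p ^ k ∨ y.natAbs = p ^ k ∨ (y - x).natAbs = p ^ k) : b = 1 ∨ M = 1 := by
  have hb := h.hb
  have hM := h.hM
  have hN := h.hN
  have hb2 : 1 ≤ b ^ 2 := one_le_pow₀ hb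
  rcases hpk with h1 | h1 | h1
  · rcases pp_int hp h1 hb2 (by omega) (Or.inr hx) (IsCoprime.pow_left h.bM) with h2 | h2
    · left; nlinarith
    · right; exact h2
  · rcases pp_int hp h1 hb (v := (M * N + b) * M) (by positivity)
      (Or.inr (by rw [hy]; ring)) (IsCoprime.mul_right h.copA h.bM) with h2 | h2
    · left; exact h2
    · right
      rcases Int.eq_one_or_neg_one_of_mul_eq_one (by rw [mul_comm] at h2; exact h2) with h3 | h3
      · exact h3
      · omega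
  · rcases pp_int hp h1 hb (v := M * (M * N)) (by positivity)
      (Or.inr (by rw [hy, hx]; ring)) (IsCoprime.mul_right h.bM (IsCoprime.mul_right h.bM h.bN))
      with h2 | h2
    · left; exact h2
    · right
      rcases Int.eq_one_or_neg_one_of_mul_eq_one h2 with h3 | h3
      · exact h3
      · omega

theorem natAbs_int {z w : ℤ} {c k : ℕ} (hz : z.natAbs = c ^ k) (hw : 0 ≤ w)
    (h : z = -w) : w = (c : ℤ) ^ k := by
  have h1 : w.natAbs = c ^ k := by rw [← hz, h, Int.natAbs_neg]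
  have h2 : (w.natAbs : ℤ) = w := Int.natAbs_of_nonneg hw
  rw [← h2, h1]; push_cast; rfl

theorem P.ypow {y : ℤ} {c i : ℕ} (h : P b M N)
    (hy : y = -((M * N - b) * (b * M))) (hc : y.natAbs = c ^ (i + 2)) : b = 1 ∨ M = 1 := by
  have hb := h.hb
  have hM := h.hM
  have hN := h.hN
  have hA := h.A0
  rcases eq_or_lt_of_le hA with h0 | h0
  · right
    have h1 : M ∣ b := ⟨N, by linarith⟩
    have h2 : IsUnit M := h.bM.symm.isUnit_of_dvd' dvd_rfl h1
    rcases Int.isUnit_iff.mp h2 with h3 | h3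
    · exact h3
    · omega
  · exfalso
    have h1 := natAbs_int hc (by positivity) hy
    obtain ⟨α, hα, hα'⟩ := int_root (u := M * N - b) (v := b * M) (by omega) (by nlinarith)
      (IsCoprime.mul_right h.copA.symm h.copM.symm) h1
    obtain ⟨β, hβ, hβ'⟩ := int_root (u := b) (v := (M * N - b) * M) hb (by nlinarith)
      (IsCoprime.mul_right h.copA h.bM) (by rw [← h1]; ring)
    obtain ⟨μ, hμ, hμ'⟩ := int_root (u := M) (v := (M * N - b) * b) hM (by nlinarith)
      (IsCoprime.mul_right h.copM h.bM.symm) (by rw [← h1]; ring)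
    exact h.pow hα hβ hμ hα' hβ' hμ'

theorem Q.ypow {y : ℤ} {c i : ℕ} (h : Q b M N)
    (hy : y = -((M * N + b) * (b * M))) (hc : y.natAbs = c ^ (i + 2)) : False := by
  have hb := h.hb
  have hM := h.hM
  have hN := h.hN
  have hMN : 1 ≤ M * N := by nlinarith
  have h1 := natAbs_int hc (by positivity) hy
  obtain ⟨α, hα, hα'⟩ := int_root (u := M * N + b) (v := b * M) (by omega) (by nlinarith)
    (IsCoprime.mul_right h.copA.symm h.copM.symm) h1
  obtain ⟨β, hβ, hβ'⟩ := int_root (u := b) (v := (M * N + b) * M) hb (by nlinarith)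
    (IsCoprime.mul_right h.copA h.bM) (by rw [← h1]; ring)
  obtain ⟨μ, hμ, hμ'⟩ := int_root (u := M) (v := (M * N + b) * b) hM (by nlinarith)
    (IsCoprime.mul_right h.copM h.bM.symm) (by rw [← h1]; ring)
  exact h.pow hα hβ hμ hα' hβ' hμ'

theorem P.bM10 (h : P b M N) : b ≤ 2048 * M ^ 10 := by
  obtain ⟨K, hK, hNK, hd⟩ := h.K
  exact bnd1 h.hb h.hM hK (h.bK hK hd) (h.K3 hK hNK)

theorem Q.bM10 (h : Q b M N) : b ≤ 2048 * M ^ 10 := by
  obtain ⟨K, hK, hNK, hd⟩ := h.K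
  exact bnd1 h.hb h.hM hK (h.bK hK hNK hd) (h.K3 hK hNK)

theorem P.M3 (h : P b M N) : M ^ 3 ≤ 320 * b ^ 7 := bnd3 h.hb h.hM h.hN h.up h.bN9
theorem Q.M3 (h : Q b M N) : M ^ 3 ≤ 320 * b ^ 7 := bnd3 h.hb h.hM h.hN h.up h.bN9

theorem final_bounds {x g b M : ℤ} (hb : 1 ≤ b) (hM : 1 ≤ M) (hx : |x| = b ^ 2 * M)
    (hg : g = b * M) (h1 : b ≤ 2048 * M ^ 10) (h2 : M ^ 3 ≤ 320 * b ^ 7) :
    x ∣ g ^ 2 ∧ |x| ^ 11 ≤ 2048 * g ^ 21 ∧ g ^ 13 ≤ 320 * |x| ^ 10 := by
  refine ⟨?_, ?_, ?_⟩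
  · have : |x| ∣ g ^ 2 := ⟨M, by rw [hx, hg]; ring⟩
    exact (abs_dvd _ _).mp this
  · rw [hx, hg]
    calc (b ^ 2 * M) ^ 11 = b ^ 21 * M ^ 11 * b := by ring
      _ ≤ b ^ 21 * M ^ 11 * (2048 * M ^ 10) := mul_le_mul_of_nonneg_left h1 (by positivity)
      _ = 2048 * (b * M) ^ 21 := by ring
  · rw [hx, hg]
    calc (b * M) ^ 13 = b ^ 13 * M ^ 10 * M ^ 3 := by ring
      _ ≤ b ^ 13 * M ^ 10 * (320 * b ^ 7) := mul_le_mul_of_nonneg_left h2 (by positivity)
      _ = 320 * (b ^ 2 * M) ^ 10 := by ring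

end H98Q
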