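import Pool.Agent.H98Q.Cases

namespace H98Q

variable {b M N : ℤ}

theorem P.Nle (h : P b M N) : N ≤ b ^ 3 := by
  obtain ⟨hb, hM, hN, bM, bN, e⟩ := h
  by_contra hcon
  push Not at hcon
  have h0 : b ≤ b ^ 3 + 1 - b ^ 2 := by nlinarith [mul_nonneg (sq_nonneg (b - 1)) (show (0:ℤ) ≤ b + 1 by omega)]
  have h1 : M * b ^ 2 ≤ M * N - b := by
    have h2 : b ≤ M * (b ^ 3 + 1 - b ^ 2) := by nlinarith
    nlinarith
  have h3 : (M * b ^ 2) ^ 3 ≤ (M * N - b) ^ 3 := pow_le_pow_left₀ (by positivity) h1 3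
  have h4 : M * b ^ 5 ≤ (M * b ^ 2) ^ 3 := by
    have h5 : b ^ 5 ≤ b ^ 6 := pow_le_pow_right₀ hb (by norm_num)
    have h6 : M ≤ M ^ 3 := by
      have : 1 ≤ M ^ 2 := one_le_pow₀ hM
      nlinarith
    calc M * b ^ 5 ≤ M ^ 3 * b ^ 6 := by
          apply mul_le_mul h6 h5 (by positivity) (by positivity)
      _ = (M * b ^ 2) ^ 3 := by ring
  linarith

theorem Q.Nle (h : Q b M N) : N ≤ b ^ 3 := by
  obtain ⟨hb, hM, hN, bM, bN, e⟩ := h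
  by_contra hcon
  push Not at hcon
  have h1 : b ^ 5 ≤ N ^ 2 := by
    have h2 : (b ^ 3) ^ 2 ≤ N ^ 2 := pow_le_pow_left₀ (by positivity) hcon.le 2
    have h5 : b ^ 5 ≤ b ^ 6 := pow_le_pow_right₀ hb (by norm_num)
    nlinarith
  have hM2 : 1 ≤ M ^ 2 := one_le_pow₀ hM
  have h3 : N ^ 2 ≤ M ^ 2 * N ^ 3 := by
    have : 1 ≤ M ^ 2 * N := by nlinarith
    have h0 : 0 < N ^ 2 := by positivity
    nlinarith
  have h4 : M * b ^ 5 ≤ M * (M ^ 2 * N ^ 3) := by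
    apply mul_le_mul_of_nonneg_left (by linarith) (by omega)
  have h6 : N ≤ 3 * M ^ 2 * N ^ 2 * b := by
    have h7 : 1 ≤ N * b := by nlinarith
    have h8 : 1 ≤ M ^ 2 * (N * b) := by nlinarith
    nlinarith
  have h9 : 0 < 3 * M * N * b ^ 2 + b ^ 3 := by positivity
  nlinarith

theorem P.pp (h : P b M N) : ∃ p : ℤ, 0 ≤ p ∧ M * p = b ^ 3 - N ∧
    b ^ 2 ∣ p ^ 3 - 3 * N ^ 3 * b * p - N ^ 5 := by
  have hl := h.Nle
  obtain ⟨hb, hM, hN, bM, bN, e⟩ := h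
  obtain ⟨p, hp⟩ : ∃ p : ℤ, M * p = b ^ 3 - N :=
    ⟨M ^ 2 * N ^ 3 - 3 * M * N ^ 2 * b + 3 * N * b ^ 2 - b ^ 5, by linear_combination e⟩
  refine ⟨p, ?_, hp, ?_⟩
  · by_contra hcon
    push Not at hcon
    nlinarith
  · have e2 : (M * p * N - b * p) ^ 3 = (M * p) * b ^ 5 * p ^ 2 - N * p ^ 3 := by
      linear_combination p ^ 3 * e
    rw [hp] at e2
    have h1 : b ^ 2 ∣ N * (p ^ 3 - 3 * N ^ 3 * b * p - N ^ 5) :=
      ⟨3 * N ^ 2 * p ^ 2 + b * p ^ 3 - 3 * (N ^ 2 + b * p) ^ 2 * b * N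
        + 3 * (N ^ 2 + b * p) * b ^ 4 * N ^ 2 - b ^ 7 * N ^ 3 + (b ^ 3 - N) * b ^ 3 * p ^ 2,
        by linear_combination e2⟩
    exact (IsCoprime.pow_left bN).dvd_of_dvd_mul_left h1

theorem Q.pp (h : Q b M N) : ∃ p : ℤ, 0 ≤ p ∧ M * p = b ^ 3 - N ∧
    b ^ 2 ∣ p ^ 3 - 3 * N ^ 3 * b * p + N ^ 5 := by
  have hl := h.Nle
  obtain ⟨hb, hM, hN, bM, bN, e⟩ := h
  obtain ⟨p, hp⟩ : ∃ p : ℤ, M * p = b ^ 3 - N :=
    ⟨b ^ 5 - M ^ 2 * N ^ 3 - 3 * M * N ^ 2 * b - 3 * N * b ^ 2, by linear_combination -e⟩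
  refine ⟨p, ?_, hp, ?_⟩
  · by_contra hcon
    push Not at hcon
    nlinarith
  · have e2 : (M * p * N + b * p) ^ 3 = (M * p) * b ^ 5 * p ^ 2 + N * p ^ 3 := by
      linear_combination p ^ 3 * e
    rw [hp] at e2
    have h1 : b ^ 2 ∣ N * (p ^ 3 - 3 * N ^ 3 * b * p + N ^ 5) :=
      ⟨-3 * N ^ 2 * p ^ 2 + b * p ^ 3 + 3 * (N ^ 2 - b * p) ^ 2 * b * N
        - 3 * (N ^ 2 - b * p) * b ^ 4 * N ^ 2 + b ^ 7 * N ^ 3 - (b ^ 3 - N) * b ^ 3 * p ^ 2,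
        by linear_combination -e2⟩
    exact (IsCoprime.pow_left bN).dvd_of_dvd_mul_left h1

theorem psq {b M N p : ℤ} (hb : 1 ≤ b) (hM : 1 ≤ M) (hN : 1 ≤ N) (hp : 0 ≤ p)
    (hl : N ≤ b ^ 3) (hMp : M * p = b ^ 3 - N) (h5 : b ^ 5 ≤ 8 * (M ^ 2 * N ^ 3)) :
    p ^ 2 ≤ 8 * N ^ 3 * b := by
  have h1 : (M * p) ^ 2 ≤ (b ^ 3) ^ 2 := pow_le_pow_left₀ (by positivity) (by omega) 2
  have h2 : p ^ 2 * b ^ 5 ≤ (8 * N ^ 3 * b) * b ^ 5 := by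
    calc p ^ 2 * b ^ 5 ≤ p ^ 2 * (8 * (M ^ 2 * N ^ 3)) :=
          mul_le_mul_of_nonneg_left h5 (by positivity)
      _ = 8 * N ^ 3 * (M * p) ^ 2 := by ring
      _ ≤ 8 * N ^ 3 * (b ^ 3) ^ 2 := mul_le_mul_of_nonneg_left h1 (by positivity)
      _ = (8 * N ^ 3 * b) * b ^ 5 := by ring
  exact le_of_mul_le_mul_right h2 (by positivity)

theorem bnd2 {b N p s : ℤ} (hb : 1 ≤ b) (hN : 1 ≤ N) (hp : 0 ≤ p)
    (hp2 : p ^ 2 ≤ 8 * N ^ 3 * b) (hs : s = N ^ 5 ∨ s = -N ^ 5)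
    (hd : b ^ 2 ∣ p ^ 3 - 3 * N ^ 3 * b * p - s) : b ≤ 200 * N ^ 9 := by
  have hN5 : 0 < N ^ 5 := by positivity
  have hN59 : N ^ 5 ≤ N ^ 9 := pow_le_pow_right₀ hN (by norm_num)
  have hs0 : s ≠ 0 := by rcases hs with h | h <;> omega
  have hsabs : |s| = N ^ 5 := by
    rcases hs with h | h
    · rw [h, abs_of_pos hN5]
    · rw [h, abs_neg, abs_of_pos hN5]
  by_cases hz : p ^ 3 - 3 * N ^ 3 * b * p - s = 0
  · have h1 : p * (p ^ 2 - 3 * N ^ 3 * b) = s := by linear_combination hz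
    have h2 : |p| ∣ |s| := by
      rw [abs_dvd_abs]; exact ⟨_, h1.symm⟩
    have h3 : p ≤ N ^ 5 := by
      have := Int.le_of_dvd (by rw [hsabs]; exact hN5) h2
      rw [abs_of_nonneg hp, hsabs] at this
      exact this
    have h4 : |p ^ 2 - 3 * N ^ 3 * b| ≤ N ^ 5 := by
      have h5 : |p ^ 2 - 3 * N ^ 3 * b| ∣ |s| := by
        rw [abs_dvd_abs]; exact ⟨p, by linear_combination -h1⟩
      have := Int.le_of_dvd (by rw [hsabs]; exact hN5) h5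
      rwa [hsabs] at this
    have h6 := (abs_le.mp h4).1
    have h7 : p ^ 2 ≤ (N ^ 5) ^ 2 := pow_le_pow_left₀ hp h3 2
    have h8 : N ^ 5 ≤ N ^ 10 := pow_le_pow_right₀ hN (by norm_num)
    have h9 : N ^ 3 * b ≤ N ^ 3 * N ^ 7 := by nlinarith
    have h10 : b ≤ N ^ 7 := le_of_mul_le_mul_left h9 (by positivity)
    have h11 : N ^ 7 ≤ N ^ 9 := pow_le_pow_right₀ hN (by norm_num)
    nlinarith
  · have h1 : b ^ 2 ≤ |p ^ 3 - 3 * N ^ 3 * b * p - s| :=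
      Int.le_of_dvd (abs_pos.mpr hz) ((dvd_abs _ _).mpr hd)
    have h3 : p ^ 3 ≤ 8 * N ^ 3 * b * p := by nlinarith
    have h4 : 0 ≤ N ^ 3 * b * p := by positivity
    have h5 : 0 ≤ p ^ 3 := by positivity
    have h2 : |p ^ 3 - 3 * N ^ 3 * b * p - s| ≤ 5 * (N ^ 3 * b * p) + N ^ 5 := by
      rw [abs_le]
      rcases hs with h | h <;> rw [h] <;> constructor <;> nlinarith
    rcases le_or_gt b (N ^ 5) with h6 | h6
    · nlinarith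
    · have h7 : b * b < b * (5 * (N ^ 3 * p) + 1) := by nlinarith
      have h8 : b < 5 * (N ^ 3 * p) + 1 := lt_of_mul_lt_mul_left h7 (by omega)
      have h9 : b ≤ 5 * (N ^ 3 * p) := by omega
      have h10 : b ^ 2 ≤ (5 * (N ^ 3 * p)) ^ 2 := pow_le_pow_left₀ (by omega) h9 2
      have h11 : (5 * (N ^ 3 * p)) ^ 2 ≤ 25 * N ^ 6 * (8 * N ^ 3 * b) := by
        calc (5 * (N ^ 3 * p)) ^ 2 = 25 * N ^ 6 * p ^ 2 := by ring
          _ ≤ 25 * N ^ 6 * (8 * N ^ 3 * b) := mul_le_mul_of_nonneg_left hp2 (by positivity)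
      have h12 : b * b ≤ b * (200 * N ^ 9) := by nlinarith
      exact le_of_mul_le_mul_left h12 (by omega)

theorem P.bN9 (h : P b M N) : b ≤ 200 * N ^ 9 := by
  obtain ⟨p, hp, hMp, hd⟩ := h.pp
  have hl := h.low
  have hle := h.Nle
  obtain ⟨hb, hM, hN, bM, bN, e⟩ := h
  have h0 : 0 ≤ M ^ 2 * N ^ 3 := by positivity
  exact bnd2 hb hN hp (psq hb hM hN hp hle hMp (by linarith)) (Or.inl rfl) hd

theorem Q.bN9 (h : Q b M N) : b ≤ 200 * N ^ 9 := by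
  obtain ⟨p, hp, hMp, hd⟩ := h.pp
  have hl := h.low
  have hle := h.Nle
  obtain ⟨hb, hM, hN, bM, bN, e⟩ := h
  refine bnd2 hb hN hp (psq hb hM hN hp hle hMp hl) (Or.inr rfl) ?_
  rw [sub_neg_eq_add]; exact hd

theorem P.up (h : P b M N) : M ^ 2 * N ^ 3 ≤ 8 * b ^ 5 := by
  obtain ⟨hb, hM, hN, bM, bN, e⟩ := h
  rcases le_or_gt (2 * b) (M * N) with h2 | h2
  · have h3 : (M * N) ^ 3 ≤ (2 * (M * N - b)) ^ 3 := pow_le_pow_left₀ (by positivity) (by linarith) 3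
    have h5 : M * (M ^ 2 * N ^ 3) ≤ M * (8 * b ^ 5) := by nlinarith
    exact le_of_mul_le_mul_left h5 (by omega)
  · have h3 : (M * N) ^ 2 ≤ (2 * b) ^ 2 := pow_le_pow_left₀ (by positivity) h2.le 2
    have h4 : N ≤ 2 * b := by nlinarith
    have h5 : b ^ 3 ≤ b ^ 5 := pow_le_pow_right₀ hb (by norm_num)
    calc M ^ 2 * N ^ 3 = (M * N) ^ 2 * N := by ring
      _ ≤ (2 * b) ^ 2 * (2 * b) := mul_le_mul h3 h4 (by omega) (by positivity)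
      _ = 8 * b ^ 3 := by ring
      _ ≤ 8 * b ^ 5 := by linarith

theorem Q.up (h : Q b M N) : M ^ 2 * N ^ 3 ≤ 8 * b ^ 5 := by
  obtain ⟨hb, hM, hN, bM, bN, e⟩ := h
  have h6 : N ≤ 3 * M ^ 2 * N ^ 2 * b := by
    have h7 : 1 ≤ N * b := by nlinarith
    have hM2 : 1 ≤ M ^ 2 := one_le_pow₀ hM
    have h8 : 1 ≤ M ^ 2 * (N * b) := by nlinarith
    nlinarith
  have h9 : 0 < 3 * M * N * b ^ 2 + b ^ 3 := by positivity
  have h5 : M * (M ^ 2 * N ^ 3) ≤ M * b ^ 5 := by nlinarith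
  have h10 : M ^ 2 * N ^ 3 ≤ b ^ 5 := le_of_mul_le_mul_left h5 (by omega)
  have h11 : 0 < b ^ 5 := by positivity
  linarith

theorem bnd3 {b M N : ℤ} (hb : 1 ≤ b) (hM : 1 ≤ M) (hN : 1 ≤ N)
    (h1 : M ^ 2 * N ^ 3 ≤ 8 * b ^ 5) (h2 : b ≤ 200 * N ^ 9) : M ^ 3 ≤ 320 * b ^ 7 := by
  have h3 : (M ^ 2 * N ^ 3) ^ 3 ≤ (8 * b ^ 5) ^ 3 := pow_le_pow_left₀ (by positivity) h1 3
  have h4 : M ^ 6 * b ≤ (320 * b ^ 7) ^ 2 * b := by
    calc M ^ 6 * b ≤ M ^ 6 * (200 * N ^ 9) := mul_le_mul_of_nonneg_left h2 (by positivity)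
      _ = 200 * (M ^ 2 * N ^ 3) ^ 3 := by ring
      _ ≤ 200 * (8 * b ^ 5) ^ 3 := by linarith
      _ = (320 * b ^ 7) ^ 2 * b := by ring
  have h5 : M ^ 6 ≤ (320 * b ^ 7) ^ 2 := le_of_mul_le_mul_right h4 (by omega)
  have h6 : (M ^ 3) ^ 2 ≤ (320 * b ^ 7) ^ 2 := by
    calc (M ^ 3) ^ 2 = M ^ 6 := by ring
      _ ≤ _ := h5
  exact abs_le_of_sq_le_sq' h6 (by positivity) |>.2

end H98Q
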