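import Pool.Agent.H98Q.Extra

namespace H98Q

variable {b M N : ℤ}

theorem omega3 {u v w : ℕ} (hu : 2 ≤ u) (hv : 2 ≤ v) (hw : 2 ≤ w) (huv : Nat.Coprime u v)
    (huw : Nat.Coprime u w) (hvw : Nat.Coprime v w) : 3 ≤ (u * (v * w)).primeFactors.card := by
  have h1 : Nat.Coprime u (v * w) := Nat.Coprime.mul_right huv huw
  rw [h1.primeFactors_mul, Finset.card_union_of_disjoint h1.disjoint_primeFactors,
    hvw.primeFactors_mul, Finset.card_union_of_disjoint hvw.disjoint_primeFactors]
  have k1 := Finset.card_pos.mpr (Nat.nonempty_primeFactors.mpr (show 1 < u by omega))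
  have k2 := Finset.card_pos.mpr (Nat.nonempty_primeFactors.mpr (show 1 < v by omega))
  have k3 := Finset.card_pos.mpr (Nat.nonempty_primeFactors.mpr (show 1 < w by omega))
  omega

theorem omega2 {u v : ℕ} (hu : 2 ≤ u) (hv : 2 ≤ v) (huv : Nat.Coprime u v) :
    2 ≤ (u * v).primeFactors.card := by
  rw [huv.primeFactors_mul, Finset.card_union_of_disjoint huv.disjoint_primeFactors]
  have k1 := Finset.card_pos.mpr (Nat.nonempty_primeFactors.mpr (show 1 < u by omega))
  have k2 := Finset.card_pos.mpr (Nat.nonempty_primeFactors.mpr (show 1 < v by omega))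
  omega

theorem omega3_int {z u v w : ℤ} (hu : 2 ≤ u) (hv : 2 ≤ v) (hw : 2 ≤ w) (huv : IsCoprime u v)
    (huw : IsCoprime u w) (hvw : IsCoprime v w) (h : z = -(u * (v * w))) :
    3 ≤ z.natAbs.primeFactors.card := by
  have h1 : z.natAbs = u.natAbs * (v.natAbs * w.natAbs) := by
    rw [h, Int.natAbs_neg, Int.natAbs_mul, Int.natAbs_mul]
  rw [h1]
  exact omega3 (by omega) (by omega) (by omega) (Int.isCoprime_iff_gcd_eq_one.mp huv)
    (Int.isCoprime_iff_gcd_eq_one.mp huw) (Int.isCoprime_iff_gcd_eq_one.mp hvw)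

theorem omega2_int {z u v : ℤ} (hu : 2 ≤ u) (hv : 2 ≤ v) (huv : IsCoprime u v)
    (h : z = u * v ∨ z = -(u * v)) : 2 ≤ z.natAbs.primeFactors.card := by
  have h1 : z.natAbs = u.natAbs * v.natAbs := by
    rcases h with h | h
    · rw [h, Int.natAbs_mul]
    · rw [h, Int.natAbs_neg, Int.natAbs_mul]
  rw [h1]
  exact omega2 (by omega) (by omega) (Int.isCoprime_iff_gcd_eq_one.mp huv)

theorem P.copMN (h : P b M N) : IsCoprime M N := by
  obtain ⟨K, hK, hNK, hd⟩ := h.K
  obtain ⟨p, hp, hMp, hd⟩ := h.pp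
  obtain ⟨s, t, hst⟩ := IsCoprime.pow_left (m := 3) h.bM
  exact ⟨t + s * p, s, by linear_combination hst + s * hMp⟩

theorem Q.copMN (h : Q b M N) : IsCoprime M N := by
  obtain ⟨p, hp, hMp, hd⟩ := h.pp
  obtain ⟨s, t, hst⟩ := IsCoprime.pow_left (m := 3) h.bM
  exact ⟨t + s * p, s, by linear_combination hst + s * hMp⟩

theorem P.omega {x y : ℤ} (h : P b M N) (hx : x = b ^ 2 * M)
    (hy : y = -((M * N - b) * (b * M)))
    (ho : x.natAbs.primeFactors.card ≤ 1 ∨ y.natAbs.primeFactors.card ≤ 2 ∨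
      (y - x).natAbs.primeFactors.card ≤ 2) : b = 1 ∨ M = 1 := by
  by_contra hcon
  push Not at hcon
  have hb := h.hb
  have hM := h.hM
  have hN := h.hN
  have hb2 : 2 ≤ b := by omega
  have hM2 : 2 ≤ M := by omega
  have hR := h.toR hb2
  have hA := hR.hA
  have hN2 : 2 ≤ N := by
    by_contra hc
    have hN1 : N = 1 := by omega
    subst hN1
    exact hcon.1 h.N1
  have hA2 : 2 ≤ M * N - b := by
    by_contra hc
    have hA1 : M * N - b = 1 := by omega
    have hbd := hR.bounds.1.2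
    rw [hA1] at hbd
    have h2 := hbd (Int.one_gcd ..)
    rcases h.small (by rw [hA1]; exact h2.1) h2.2 with h3 | h3
    · exact hcon.1 h3
    · exact hcon.2 h3
  rcases ho with ho | ho | ho
  · have := omega2_int (z := x) (u := b ^ 2) (v := M) (by nlinarith) hM2
      (IsCoprime.pow_left h.bM) (Or.inl hx)
    omega
  · have := omega3_int (z := y) hb2 hM2 hA2 h.bM h.copA h.copM (by rw [hy]; ring)
    omega
  · have := omega3_int (z := y - x) (u := b) (v := M ^ 2) (w := N) hb2 (by nlinarith) hN2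
      (IsCoprime.pow_right h.bM) h.bN (IsCoprime.pow_left h.copMN) (by rw [hy, hx]; ring)
    omega

theorem Q.omega {x y : ℤ} (h : Q b M N) (hx : x = -(b ^ 2 * M))
    (hy : y = -((M * N + b) * (b * M)))
    (ho : x.natAbs.primeFactors.card ≤ 1 ∨ y.natAbs.primeFactors.card ≤ 2 ∨
      (y - x).natAbs.primeFactors.card ≤ 2) : b = 1 ∨ M = 1 := by
  by_contra hcon
  push Not at hcon
  have hb := h.hb
  have hM := h.hM
  have hN := h.hN
  have hb2 : 2 ≤ b := by omega
  have hM2 : 2 ≤ M := by omega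
  have hMN : 1 ≤ M * N := by nlinarith
  have hN2 : 2 ≤ N := by
    by_contra hc
    have hN1 : N = 1 := by omega
    subst hN1
    exact hcon.1 h.N1
  rcases ho with ho | ho | ho
  · have := omega2_int (z := x) (u := b ^ 2) (v := M) (by nlinarith) hM2
      (IsCoprime.pow_left h.bM) (Or.inr hx)
    omega
  · have := omega3_int (z := y) hb2 hM2 (by omega) h.bM h.copA h.copM (by rw [hy]; ring)
    omega
  · have := omega3_int (z := y - x) (u := b) (v := M ^ 2) (w := N) hb2 (by nlinarith) hN2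
      (IsCoprime.pow_right h.bM) h.bN (IsCoprime.pow_left h.copMN) (by rw [hy, hx]; ring)
    omega

end H98Q
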