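import Pool.Agent.H98Q.Final

namespace H98Q

variable {b M N : ℤ}

theorem cases (x y : ℤ) (hx : x ≠ 0) (h : x ^ 4 - x ^ 2 + x * y + y ^ 3 = 0) :
    (x = -1 ∧ (y = -1 ∨ y = 0 ∨ y = 1)) ∨
    (∃ b M N : ℤ, P b M N ∧ x = b ^ 2 * M ∧ y = -((M * N - b) * (b * M)) ∧
      (Int.gcd x y : ℤ) = b * M) ∨
    (∃ b M N : ℤ, Q b M N ∧ x = -(b ^ 2 * M) ∧ y = -((M * N + b) * (b * M)) ∧
      (Int.gcd x y : ℤ) = b * M) := by
  obtain ⟨b, m, n, hb, hm, hbm, hbn, hx1, hy1, hE, hg⟩ := reduce x y hx h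
  rcases le_or_gt 0 n with hn | hn
  · left
    obtain ⟨rfl, rfl, hn'⟩ := nonneg_case hb hm hn hbn hE
    refine ⟨by rw [hx1]; norm_num, ?_⟩
    rcases hn' with rfl | rfl | rfl
    · left; rw [hy1]; norm_num
    · right; left; rw [hy1]; norm_num
    · right; right; rw [hy1]; norm_num
  · right
    obtain ⟨N, rfl⟩ : ∃ N, n = -N := ⟨-n, by ring⟩
    rcases lt_or_gt_of_ne hm with hneg | hpos
    · right
      obtain ⟨M, rfl⟩ : ∃ M, m = -M := ⟨-m, by ring⟩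
      refine ⟨b, M, N, ⟨by omega, by omega, by omega, ?_, ?_, ?_⟩, ?_, ?_, ?_⟩
      · exact (IsCoprime.neg_right_iff _ _).mp hbm
      · exact (IsCoprime.neg_right_iff _ _).mp hbn
      · linear_combination hE
      · rw [hx1]; ring
      · rw [hy1]; ring
      · rw [hg, abs_neg, abs_of_pos (by omega)]
    · left
      refine ⟨b, m, N, ⟨by omega, by omega, by omega, hbm, ?_, ?_⟩, hx1, ?_, ?_⟩
      · exact (IsCoprime.neg_right_iff _ _).mp hbn
      · linear_combination -hE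
      · rw [hy1]; ring
      · rw [hg, abs_of_pos hpos]

theorem pp_one {u v p k : ℕ} (hp : p.Prime) (h : u * v = p ^ k) (hc : Nat.Coprime u v) :
    u = 1 ∨ v = 1 := by
  obtain ⟨i, -, hi⟩ := (Nat.dvd_prime_pow hp).mp (Dvd.intro _ h)
  obtain ⟨j, -, hj⟩ := (Nat.dvd_prime_pow hp).mp (Dvd.intro_left _ h)
  rcases Nat.eq_zero_or_pos i with hi0 | hi0
  · left; rw [hi, hi0, pow_zero]
  · rcases Nat.eq_zero_or_pos j with hj0 | hj0
    · right; rw [hj, hj0, pow_zero]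
    · exfalso
      have h1 : p ∣ u := by rw [hi]; exact dvd_pow_self p hi0.ne'
      have h2 : p ∣ v := by rw [hj]; exact dvd_pow_self p hj0.ne'
      have h3 : p ∣ 1 := by
        have := Nat.dvd_gcd h1 h2
        rwa [hc] at this
      exact hp.one_lt.ne' (Nat.dvd_one.mp h3)

theorem pp_int {u v : ℤ} {z : ℤ} {p k : ℕ} (hp : p.Prime) (hz : z.natAbs = p ^ k)
    (hu : 1 ≤ u) (hv : 0 ≤ v) (h : z = u * v ∨ z = -(u * v)) (hc : IsCoprime u v) :
    u = 1 ∨ v = 1 := by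
  have h1 : u.natAbs * v.natAbs = p ^ k := by
    rw [← hz, ← Int.natAbs_mul]
    rcases h with h | h
    · rw [h]
    · rw [h, Int.natAbs_neg]
  have h2 : Nat.Coprime u.natAbs v.natAbs := Int.isCoprime_iff_gcd_eq_one.mp hc
  rcases pp_one hp h1 h2 with h3 | h3
  · left; omega
  · right; omega

theorem diffpow {u v : ℤ} {i : ℕ} (hu : 0 ≤ u) (huv : u + 1 ≤ v) :
    v ^ (i + 1) + u ^ (i + 1) ≤ v ^ (i + 2) - u ^ (i + 2) := by
  have hv : 0 ≤ v := by linarith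
  have h1 : u ^ i ≤ v ^ i := pow_le_pow_left₀ hu (by linarith) i
  have h2 : (u + 1) * u ^ i ≤ v ^ (i + 1) := by
    calc (u + 1) * u ^ i ≤ v * v ^ i := mul_le_mul huv h1 (by positivity) hv
      _ = v ^ (i + 1) := by ring
  have h3 : (u + 1) * v ^ (i + 1) ≤ v ^ (i + 2) := by
    calc (u + 1) * v ^ (i + 1) ≤ v * v ^ (i + 1) :=
          mul_le_mul_of_nonneg_right huv (by positivity)
      _ = v ^ (i + 2) := by ring
  have h4 : u * ((u + 1) * u ^ i) ≤ u * v ^ (i + 1) := mul_le_mul_of_nonneg_left h2 hu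
  have h5 : u * ((u + 1) * u ^ i) = u ^ (i + 2) + u ^ (i + 1) := by ring
  linarith

/-- the numbers of a solution with positive x are not all k-th powers -/
theorem P.pow (h : P b M N) {α β μ : ℤ} {i : ℕ} (hα : 1 ≤ α) (hβ : 1 ≤ β) (hμ : 1 ≤ μ)
    (hA : M * N - b = α ^ (i + 2)) (hb' : b = β ^ (i + 2)) (hM' : M = μ ^ (i + 2)) :
    False := by
  have e := h.e
  have e1 : (α ^ 3) ^ (i + 2) = (μ * β ^ 5) ^ (i + 2) - N := by
    calc (α ^ 3) ^ (i + 2) = (α ^ (i + 2)) ^ 3 := by rw [← pow_mul, ← pow_mul, mul_comm]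
      _ = (M * N - b) ^ 3 := by rw [hA]
      _ = M * b ^ 5 - N := e
      _ = μ ^ (i + 2) * (β ^ (i + 2)) ^ 5 - N := by rw [hM', hb']
      _ = (μ * β ^ 5) ^ (i + 2) - N := by rw [mul_pow, ← pow_mul, ← pow_mul, mul_comm (i + 2) 5]
  have hN := h.hN
  have h1 : (α ^ 3) ^ (i + 2) < (μ * β ^ 5) ^ (i + 2) := by linarith
  have h2 : α ^ 3 < μ * β ^ 5 := lt_of_pow_lt_pow_left₀ (i + 2) (by positivity) h1
  have h3 := diffpow (i := i) (show (0:ℤ) ≤ α ^ 3 by positivity) (show α ^ 3 + 1 ≤ μ * β ^ 5 by omega)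
  have h4 : α ^ (i + 2) ≤ (α ^ 3) ^ (i + 1) := by
    rw [← pow_mul]; exact pow_le_pow_right₀ hα (by omega)
  have h5 : β ^ (i + 2) ≤ (μ * β ^ 5) ^ (i + 1) := by
    calc β ^ (i + 2) ≤ (β ^ 5) ^ (i + 1) := by
          rw [← pow_mul]; exact pow_le_pow_right₀ hβ (by omega)
      _ ≤ (μ * β ^ 5) ^ (i + 1) := by
          apply pow_le_pow_left₀ (by positivity)
          have : 0 < β ^ 5 := by positivity
          nlinarith
  have h6 : M * N ≤ N := by
    have : M * N = α ^ (i + 2) + b := by linarith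
    rw [this]
    linarith
  have hM1 : M = 1 := by
    have := h.hM
    nlinarith
  subst hM1
  rcases h.one with ⟨h7, h8⟩ | ⟨h7, h8⟩
  · subst h7 h8
    have : 0 < α ^ (i + 2) := by positivity
    norm_num at hA
    linarith
  · rw [h7] at hb'
    have hβ2 : 2 ≤ β := by
      by_contra hcon
      have : β = 1 := by omega
      rw [this] at hb'
      norm_num at hb'
    have h9 : (2:ℤ) ^ (i + 2) ≤ β ^ (i + 2) := pow_le_pow_left₀ (by norm_num) hβ2 _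
    have h10 : (2:ℤ) ^ 2 ≤ 2 ^ (i + 2) := pow_le_pow_right₀ (by norm_num) (by omega)
    linarith

theorem Q.pow (h : Q b M N) {α β μ : ℤ} {i : ℕ} (hα : 1 ≤ α) (hβ : 1 ≤ β) (hμ : 1 ≤ μ)
    (hA : M * N + b = α ^ (i + 2)) (hb' : b = β ^ (i + 2)) (hM' : M = μ ^ (i + 2)) :
    False := by
  have e := h.e
  have e1 : (α ^ 3) ^ (i + 2) = (μ * β ^ 5) ^ (i + 2) + N := by
    calc (α ^ 3) ^ (i + 2) = (α ^ (i + 2)) ^ 3 := by rw [← pow_mul, ← pow_mul, mul_comm]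
      _ = (M * N + b) ^ 3 := by rw [hA]
      _ = M * b ^ 5 + N := e
      _ = μ ^ (i + 2) * (β ^ (i + 2)) ^ 5 + N := by rw [hM', hb']
      _ = (μ * β ^ 5) ^ (i + 2) + N := by rw [mul_pow, ← pow_mul, ← pow_mul, mul_comm (i + 2) 5]
  have hN := h.hN
  have h1 : (μ * β ^ 5) ^ (i + 2) < (α ^ 3) ^ (i + 2) := by linarith
  have h2 : μ * β ^ 5 < α ^ 3 := lt_of_pow_lt_pow_left₀ (i + 2) (by positivity) h1
  have h3 := diffpow (i := i) (show (0:ℤ) ≤ μ * β ^ 5 by positivity) (show μ * β ^ 5 + 1 ≤ α ^ 3 by omega)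
  have h4 : α ^ (i + 2) ≤ (α ^ 3) ^ (i + 1) := by
    rw [← pow_mul]; exact pow_le_pow_right₀ hα (by omega)
  have h5 : 0 ≤ (μ * β ^ 5) ^ (i + 1) := by positivity
  have hM := h.hM
  have hb := h.hb
  nlinarith

end H98Q
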