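import Pool.Agent.H98Q.Powers

namespace H98Q

variable {b M N : ℤ}

theorem nat_root {u v c k : ℕ} (hc : Nat.Coprime u v) (h : u * v = c ^ k) : ∃ d, u = d ^ k :=
  exists_eq_pow_of_mul_eq_pow (Nat.isUnit_iff.mpr hc) h

theorem int_root {u v : ℤ} {c i : ℕ} (hu : 1 ≤ u) (hv : 1 ≤ v) (hc : IsCoprime u v)
    (h : u * v = (c : ℤ) ^ (i + 2)) : ∃ d : ℤ, 1 ≤ d ∧ u = d ^ (i + 2) := by
  have h2 : Nat.Coprime u.natAbs v.natAbs := Int.isCoprime_iff_gcd_eq_one.mp hc
  have h1 : u.natAbs * v.natAbs = c ^ (i + 2) := by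
    rw [← Int.natAbs_mul, h, Int.natAbs_pow, Int.natAbs_natCast]
  obtain ⟨d, hd⟩ := nat_root h2 h1
  have hd0 : d ≠ 0 := by
    rintro rfl
    rw [zero_pow (by omega)] at hd
    omega
  refine ⟨d, by omega, ?_⟩
  have h3 : (u.natAbs : ℤ) = u := by omega
  rw [← h3, hd]
  push_cast
  rfl

theorem sq_cube {b s : ℤ} (hb : 1 ≤ b) (hs : 1 ≤ s) (h : b ^ 2 = s ^ 3) :
    ∃ t : ℤ, 1 ≤ t ∧ b = t ^ 3 := by
  have h1 : s ^ 3 ∣ b ^ 3 := ⟨b, by rw [← h]; ring⟩
  have h2 : s ∣ b := (Int.pow_dvd_pow_iff (by norm_num)).mp h1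
  obtain ⟨t, rfl⟩ := h2
  have ht : 1 ≤ t := by
    by_contra hcon
    push Not at hcon
    nlinarith
  refine ⟨t, ht, ?_⟩
  have h3 : s ^ 2 * (t ^ 2) = s ^ 2 * s := by linear_combination h
  have h4 : t ^ 2 = s := mul_left_cancel₀ (by positivity) h3
  rw [← h4]; ring

theorem P.A0 (h : P b M N) : 0 ≤ M * N - b := by
  obtain ⟨hb, hM, hN, bM, bN, e⟩ := h
  by_contra hcon
  push Not at hcon
  have h3 : (M * N - b) ^ 3 < 0 := Odd.pow_neg (by decide) hcon
  have h4 : b ≤ b ^ 5 := by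
    have : 1 ≤ b ^ 4 := one_le_pow₀ hb
    nlinarith
  have h5 : b ^ 5 ≤ M * b ^ 5 := by
    have : 0 < b ^ 5 := by positivity
    nlinarith
  nlinarith

theorem P.copA (h : P b M N) : IsCoprime b (M * N - b) := by
  obtain ⟨s, t, hst⟩ := IsCoprime.mul_right h.bM h.bN
  exact ⟨s + t, t, by linear_combination hst⟩

theorem Q.copA (h : Q b M N) : IsCoprime b (M * N + b) := by
  obtain ⟨s, t, hst⟩ := IsCoprime.mul_right h.bM h.bN
  exact ⟨s - t, t, by linear_combination hst⟩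

theorem P.copM (h : P b M N) : IsCoprime M (M * N - b) := by
  obtain ⟨s, t, hst⟩ := h.bM
  exact ⟨t + s * N, -s, by linear_combination hst⟩

theorem Q.copM (h : Q b M N) : IsCoprime M (M * N + b) := by
  obtain ⟨s, t, hst⟩ := h.bM
  exact ⟨t - s * N, s, by linear_combination hst⟩

theorem P.fin {x y : ℤ} (h : P b M N) (hor : b = 1 ∨ M = 1) (hx : x = b ^ 2 * M)
    (hy : y = -((M * N - b) * (b * M))) :
    (x = 1 ∧ y = 0) ∨ (x = 2 ∧ y = -2) ∨ (x = 4 ∧ y = -6) := by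
  rcases hor with rfl | rfl
  · obtain ⟨rfl, hM | hM⟩ := h.bone
    · subst hM
      left; constructor
      · rw [hx]; norm_num
      · rw [hy]; norm_num
    · subst hM
      right; left; constructor
      · rw [hx]; norm_num
      · rw [hy]; norm_num
  · rcases h.one with ⟨rfl, rfl⟩ | ⟨rfl, rfl⟩
    · left; constructor
      · rw [hx]; norm_num
      · rw [hy]; norm_num
    · right; right; constructor
      · rw [hx]; norm_num
      · rw [hy]; norm_num

theorem Q.fin (h : Q b M N) (hor : b = 1 ∨ M = 1) : False := by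
  rcases hor with rfl | rfl
  · exact h.bone
  · exact h.one

/-- positive x a cube -/
theorem P.cube (h : P b M N) {c : ℤ} (hc : b ^ 2 * M = c ^ 3) : M = 1 := by
  have hb := h.hb
  have hM := h.hM
  have hb2 : 1 ≤ b ^ 2 := one_le_pow₀ hb
  have hc0 : 0 < c := by
    have h1 : 0 < c ^ 3 := by rw [← hc]; positivity
    by_contra hcon
    push Not at hcon
    have : c ^ 3 ≤ 0 := Odd.pow_nonpos (by decide) hcon
    linarith
  obtain ⟨c', rfl⟩ := Int.eq_ofNat_of_zero_le hc0.le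
  obtain ⟨s, hs, hs3⟩ := int_root (i := 1) hb2 hM (IsCoprime.pow_left h.bM) hc
  obtain ⟨μ, hμ, hμ3⟩ := int_root (i := 1) hM hb2 (IsCoprime.pow_left h.bM).symm
    (by rw [mul_comm]; exact hc)
  obtain ⟨β, hβ, hβ3⟩ := sq_cube hb hs hs3
  have e := h.e
  have hA := h.A0
  have hN := h.hN
  set A := M * N - b with hAdef
  have e1 : A ^ 3 = (μ * β ^ 5) ^ 3 - N := by
    rw [e, hμ3, hβ3]; ring
  have h1 : A ^ 3 < (μ * β ^ 5) ^ 3 := by linarith
  have h2 : A < μ * β ^ 5 := lt_of_pow_lt_pow_left₀ 3 (by positivity) h1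
  have h3 := diffpow (i := 1) hA (show A + 1 ≤ μ * β ^ 5 by omega)
  norm_num at h3
  have h4 : A ≤ A ^ 2 := by nlinarith
  have h5 : b ≤ (μ * β ^ 5) ^ 2 := by
    calc b = β ^ 3 := hβ3
      _ ≤ β ^ 10 := pow_le_pow_right₀ hβ (by norm_num)
      _ ≤ μ ^ 2 * β ^ 10 := by
          have : 1 ≤ μ ^ 2 := one_le_pow₀ hμ
          have h0 : 0 < β ^ 10 := by positivity
          nlinarith
      _ = (μ * β ^ 5) ^ 2 := by ring
  have h6 : M * N ≤ N := by
    have : M * N = A + b := by rw [hAdef]; ring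
    rw [this]
    linarith
  nlinarith

theorem Q.cube (h : Q b M N) {c : ℤ} (hc : b ^ 2 * M = c ^ 3) : False := by
  have hb := h.hb
  have hM := h.hM
  have hb2 : 1 ≤ b ^ 2 := one_le_pow₀ hb
  have hc0 : 0 < c := by
    have h1 : 0 < c ^ 3 := by rw [← hc]; positivity
    by_contra hcon
    push Not at hcon
    have : c ^ 3 ≤ 0 := Odd.pow_nonpos (by decide) hcon
    linarith
  obtain ⟨c', rfl⟩ := Int.eq_ofNat_of_zero_le hc0.le
  obtain ⟨s, hs, hs3⟩ := int_root (i := 1) hb2 hM (IsCoprime.pow_left h.bM) hc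
  obtain ⟨μ, hμ, hμ3⟩ := int_root (i := 1) hM hb2 (IsCoprime.pow_left h.bM).symm
    (by rw [mul_comm]; exact hc)
  obtain ⟨β, hβ, hβ3⟩ := sq_cube hb hs hs3
  have e := h.e
  have hN := h.hN
  have hMN : N ≤ M * N := by nlinarith
  set A := M * N + b with hAdef
  have hA : 1 ≤ A := by linarith
  have e1 : A ^ 3 = (μ * β ^ 5) ^ 3 + N := by
    rw [e, hμ3, hβ3]; ring
  have h1 : (μ * β ^ 5) ^ 3 < A ^ 3 := by linarith
  have h2 : μ * β ^ 5 < A := lt_of_pow_lt_pow_left₀ 3 (by positivity) h1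
  have h3 := diffpow (i := 1) (show (0:ℤ) ≤ μ * β ^ 5 by positivity) (show μ * β ^ 5 + 1 ≤ A by omega)
  norm_num at h3
  have h4 : A ≤ A ^ 2 := by nlinarith
  have h5 : 0 ≤ (μ * β ^ 5) ^ 2 := by positivity
  linarith

end H98Q
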