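import Pool.Agent.H98Q.Fac

namespace H98Q

variable {b M N A σ : ℤ}

theorem R.size (h : R b M N A σ) {q T δ : ℤ} (hδ : δ = 1 ∨ δ = -1) (hq : 1 ≤ q) (hT : 1 ≤ T)
    (hqT : q * T = A) (hqu : q ∣ M * b ^ 2 - δ) : A ≤ 8 * (T ^ 3 * b) ∧ M * b ^ 2 ≤ 515 * T ^ 9 := by
  have hrel := h.rel
  obtain ⟨hb, hM, hN, hA, hσ, bM, bA, r, e⟩ := h
  have hqA : q ∣ A := ⟨T, hqT.symm⟩
  have hqb : IsCoprime q b := (bA.symm).of_isCoprime_of_dvd_left hqA
  obtain ⟨l, hl⟩ := cubeDiv hσ hδ (by omega) hqA hqu hqb hrel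
  have hb4 : 4 ≤ b ^ 2 := by nlinarith
  have hNA : N ≤ A + b := by
    have h1 : N ≤ M * N := by nlinarith
    rcases hσ with hs | hs <;> subst hs <;> linarith
  have ht : 1 ≤ T ^ 3 := one_le_pow₀ hT
  have key : (N * l - 3 * T ^ 3) * A ^ 3 =
      T ^ 3 * (-σ * A ^ 2 * b + 4 * A * b ^ 2 + 8 * σ * b ^ 3 - 8 * δ * N) := by
    have h1 : A ^ 3 = q ^ 3 * T ^ 3 := by rw [← hqT]; ring
    have h2 : N * (M * (8 * b ^ 2 - 4 * σ * A * b + 3 * A ^ 2) - 8 * δ)
        = 3 * A ^ 3 - σ * A ^ 2 * b + 4 * A * b ^ 2 + 8 * σ * b ^ 3 - 8 * δ * N := by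
      rcases hσ with hs | hs <;> subst hs
      · linear_combination (8 * b ^ 2 - 4 * 1 * A * b + 3 * A ^ 2) * r
      · linear_combination (8 * b ^ 2 - 4 * (-1) * A * b + 3 * A ^ 2) * r
    rw [hl] at h2
    linear_combination T ^ 3 * h2 + N * l * h1
  have claim : A ≤ 8 * (T ^ 3 * b) := by
    by_contra hcon
    push Not at hcon
    have hAb : 8 * b < A := by nlinarith
    have g1 : 8 * (A * b ^ 2) ≤ A ^ 2 * b := by
      have : 0 < A * b := by positivity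
      nlinarith
    have g2 : 8 * b ^ 3 ≤ A * b ^ 2 := by
      have : 0 < b ^ 2 := by positivity
      nlinarith
    have g3 : 4 * A ≤ A * b ^ 2 := by nlinarith
    by_cases hD : N * l - 3 * T ^ 3 = 0
    · rw [hD, zero_mul] at key
      have hW : -σ * A ^ 2 * b + 4 * A * b ^ 2 + 8 * σ * b ^ 3 - 8 * δ * N = 0 := by
        rcases mul_eq_zero.mp key.symm with h1 | h1
        · omega
        · exact h1
      rcases hσ with hs | hs <;> subst hs <;> rcases hδ with hd | hd <;> subst hd <;> nlinarith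
    · have h1 : A ^ 3 ≤ |(N * l - 3 * T ^ 3) * A ^ 3| := by
        rw [abs_mul, abs_of_nonneg (show (0:ℤ) ≤ A ^ 3 by positivity)]
        have h2 : 1 ≤ |N * l - 3 * T ^ 3| := Int.one_le_abs hD
        have h3 : 0 < A ^ 3 := by positivity
        nlinarith
      have h2 : |-σ * A ^ 2 * b + 4 * A * b ^ 2 + 8 * σ * b ^ 3 - 8 * δ * N|
          ≤ A ^ 2 * b + 4 * (A * b ^ 2) + 8 * b ^ 3 + 8 * N := by
        have k1 : 0 ≤ A ^ 2 * b := by positivity
        have k2 : 0 ≤ A * b ^ 2 := by positivity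
        have k3 : 0 ≤ b ^ 3 := by positivity
        rw [abs_le]
        rcases hσ with hs | hs <;> subst hs <;> rcases hδ with hd | hd <;> subst hd <;>
          constructor <;> nlinarith
      rw [key, abs_mul, abs_of_nonneg (show (0:ℤ) ≤ T ^ 3 by positivity)] at h1
      have h3 : A ^ 3 ≤ T ^ 3 * (A ^ 2 * b + 4 * (A * b ^ 2) + 8 * b ^ 3 + 8 * N) :=
        h1.trans (mul_le_mul_of_nonneg_left h2 (by positivity))
      generalize T ^ 3 = t at *
      have hs0 : 0 < t * b := by positivity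
      have f1 : 8 * (t * (A ^ 2 * b)) ≤ A ^ 3 := by
        have : 0 < A ^ 2 := by positivity
        nlinarith
      have hsA : (8 * (t * b)) ^ 2 ≤ A ^ 2 := pow_le_pow_left₀ (by positivity) hcon.le 2
      have hsA3 : (8 * (t * b)) ^ 3 ≤ A ^ 3 := pow_le_pow_left₀ (by positivity) hcon.le 3
      have tt : t ≤ t ^ 2 := by nlinarith
      have ttt : t ≤ t ^ 3 := by
        have : 1 ≤ t ^ 2 := one_le_pow₀ ht
        nlinarith
      have f2 : 16 * (t * (4 * (A * b ^ 2))) ≤ A ^ 3 := by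
        have k1 : t * b ^ 2 ≤ t ^ 2 * b ^ 2 := by nlinarith
        have k2 : 64 * (t * b ^ 2) ≤ A ^ 2 := by nlinarith
        have k3 : A * (64 * (t * b ^ 2)) ≤ A * A ^ 2 := mul_le_mul_of_nonneg_left k2 (by omega)
        nlinarith
      have f3 : 64 * (t * (8 * b ^ 3)) ≤ A ^ 3 := by
        have k0 : 0 < b ^ 3 := by positivity
        have k1 : t * b ^ 3 ≤ t ^ 3 * b ^ 3 := by nlinarith
        nlinarith
      have f4 : 256 * (t * A) ≤ A ^ 3 := by
        have k1 : 4 * t ^ 2 ≤ (t * b) ^ 2 := by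
          have : 0 < t ^ 2 := by positivity
          nlinarith
        have k2 : 256 * t ≤ A ^ 2 := by nlinarith
        have k3 : A * (256 * t) ≤ A * A ^ 2 := mul_le_mul_of_nonneg_left k2 (by omega)
        nlinarith
      have f5 : t * (8 * N) ≤ 9 * (t * A) := by
        have k1 : t * N ≤ t * (A + b) := mul_le_mul_of_nonneg_left hNA (by omega)
        have k2 : t * (8 * b) ≤ t * A := mul_le_mul_of_nonneg_left hAb.le (by omega)
        nlinarith
      have hA3 : 0 < A ^ 3 := by positivity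
      nlinarith
  refine ⟨claim, ?_⟩
  have h1 : A ^ 3 ≤ (8 * (T ^ 3 * b)) ^ 3 := pow_le_pow_left₀ (by omega) claim 3
  have h2 : M * b ^ 5 ≤ A ^ 3 + N := by
    rcases hσ with hs | hs <;> subst hs <;> linarith
  have h3 : 9 * (T ^ 3 * b) ≤ 3 * (T ^ 9 * b ^ 3) := by
    have k1 : T ^ 3 ≤ T ^ 9 := pow_le_pow_right₀ hT (by norm_num)
    have k2 : 4 * b ≤ b ^ 3 := by nlinarith
    have k3 : T ^ 3 * (4 * b) ≤ T ^ 9 * b ^ 3 := mul_le_mul k1 k2 (by omega) (by positivity)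
    have k4 : 0 < T ^ 3 * b := by positivity
    nlinarith
  have h4 : A + b ≤ 9 * (T ^ 3 * b) := by
    have : b ≤ T ^ 3 * b := by nlinarith
    linarith
  have h5 : b ^ 3 * (M * b ^ 2) ≤ b ^ 3 * (515 * T ^ 9) := by nlinarith
  exact le_of_mul_le_mul_left h5 (by positivity)

theorem chkPP : ∀ b : Fin 23, ∀ M : Fin 130, 2 ≤ (b : ℕ) → 2 ≤ (M : ℕ) →
    (M : ℕ) * (b : ℕ) ^ 2 ≤ 515 → ∀ N ∈ List.range (9 * (b : ℕ) / (M : ℕ) + 1), 1 ≤ N →
    ((M : ℕ) * N - (b : ℕ)) ^ 3 + N ≠ (M : ℕ) * (b : ℕ) ^ 5 ∧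
    ((M : ℕ) * N + (b : ℕ)) ^ 3 ≠ (M : ℕ) * (b : ℕ) ^ 5 + N := by
  decide +kernel

end H98Q
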