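import Pool.Agent.H98Q.Cof

namespace H98Q

variable {b M N A σ : ℤ}

theorem chkT : ∀ b : Fin 236, ∀ k : Fin 14, 2 ≤ (b : ℕ) →
    ¬ (2 ≤ (2 ^ (k : ℕ)) ^ 3 / (b : ℕ) ^ 5 + 1 ∧
      ((2 ^ (k : ℕ)) ^ 3 / (b : ℕ) ^ 5 + 1) *
        (((2 ^ (k : ℕ)) ^ 3 / (b : ℕ) ^ 5 + 1) * (b : ℕ) ^ 5 - (2 ^ (k : ℕ)) ^ 3) =
        2 ^ (k : ℕ) + (b : ℕ)) ∧
    ¬ (2 ≤ (2 ^ (k : ℕ)) ^ 3 / (b : ℕ) ^ 5 ∧
      ((2 ^ (k : ℕ)) ^ 3 / (b : ℕ) ^ 5) *
        ((2 ^ (k : ℕ)) ^ 3 - (2 ^ (k : ℕ)) ^ 3 / (b : ℕ) ^ 5 * (b : ℕ) ^ 5) + (b : ℕ) =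
        2 ^ (k : ℕ)) := by
  decide +kernel

theorem R.pow2 {k : ℕ} (h : R b M N A σ) (hM2 : 2 ≤ M) (hN3 : N ≤ b ^ 3) (hA2 : A = 2 ^ k)
    (hB : M * b ^ 2 ≤ 110848) : False := by
  obtain ⟨hb, hM, hN, hA, hσ, bM, bA, r, e⟩ := h
  have hb235 : b ≤ 235 := by
    by_contra hc
    push Not at hc
    have h1 : (236 : ℤ) ^ 2 ≤ b ^ 2 := pow_le_pow_left₀ (by norm_num) (by omega) 2
    nlinarith
  have hb3 : 0 < b ^ 3 := by positivity
  have hA49 : A < 49 * b := by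
    by_contra hc
    push Not at hc
    have h1 : (49 * b) ^ 3 ≤ A ^ 3 := pow_le_pow_left₀ (by positivity) hc 3
    have h2 : M * b ^ 5 = (M * b ^ 2) * b ^ 3 := by ring
    have h3 : (M * b ^ 2) * b ^ 3 ≤ 110848 * b ^ 3 := mul_le_mul_of_nonneg_right hB hb3.le
    have h4 : A ^ 3 ≤ M * b ^ 5 + N := by
      rcases hσ with hs | hs <;> subst hs <;> linarith
    have h5 : (49 * b) ^ 3 = 117649 * b ^ 3 := by ring
    linarith
  have hk : k < 14 := by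
    by_contra hc
    push Not at hc
    have h1 : (2 : ℤ) ^ 14 ≤ 2 ^ k := pow_le_pow_right₀ (by norm_num) hc
    have h2 : (2 : ℤ) ^ 14 = 16384 := by norm_num
    linarith
  have hNb5 : N < b ^ 5 := by
    have h1 : 4 ≤ b ^ 2 := by nlinarith
    have h2 : b ^ 5 = b ^ 2 * b ^ 3 := by ring
    nlinarith
  obtain ⟨b', rfl⟩ := Int.eq_ofNat_of_zero_le (show 0 ≤ b by omega)
  obtain ⟨M', rfl⟩ := Int.eq_ofNat_of_zero_le (show 0 ≤ M by omega)
  obtain ⟨N', rfl⟩ := Int.eq_ofNat_of_zero_le (show 0 ≤ N by omega)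
  subst hA2
  have hbb : 2 ≤ b' := by exact_mod_cast hb
  have hMM : 2 ≤ M' := by exact_mod_cast hM2
  have hNN : 1 ≤ N' := by exact_mod_cast hN
  have hNb : N' < b' ^ 5 := by exact_mod_cast hNb5
  have hb' : b' < 236 := by omega
  have hc := chkT ⟨b', hb'⟩ ⟨k, hk⟩ hbb
  simp only at hc
  have hb5 : 0 < b' ^ 5 := by positivity
  rcases hσ with hs | hs
  · subst hs
    have e1 : (2 ^ k) ^ 3 + N' = M' * b' ^ 5 := by
      have : ((2 : ℤ) ^ k) ^ 3 + N' = M' * (b' : ℤ) ^ 5 := by linarith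
      exact_mod_cast this
    have r1 : M' * N' = 2 ^ k + b' := by
      have : (M' : ℤ) * N' = 2 ^ k + b' := by linarith
      exact_mod_cast this
    have hdiv : (2 ^ k) ^ 3 / b' ^ 5 + 1 = M' := by
      have h1 : (2 ^ k) ^ 3 / b' ^ 5 = M' - 1 := by
        obtain ⟨m, rfl⟩ : ∃ m, M' = m + 1 := ⟨M' - 1, by omega⟩
        rw [Nat.add_sub_cancel]
        apply Nat.div_eq_of_lt_le
        · have : (m + 1) * b' ^ 5 = m * b' ^ 5 + b' ^ 5 := by ring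
          omega
        · omega
      omega
    apply hc.1
    rw [hdiv]
    refine ⟨hMM, ?_⟩
    have : M' * b' ^ 5 - (2 ^ k) ^ 3 = N' := by omega
    rw [this]
    exact r1
  · subst hs
    have e1 : (2 ^ k) ^ 3 = M' * b' ^ 5 + N' := by
      have : ((2 : ℤ) ^ k) ^ 3 = M' * (b' : ℤ) ^ 5 + N' := by linarith
      exact_mod_cast this
    have r1 : M' * N' + b' = 2 ^ k := by
      have : (M' : ℤ) * N' + b' = 2 ^ k := by linarith
      exact_mod_cast this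
    have hdiv : (2 ^ k) ^ 3 / b' ^ 5 = M' := by
      apply Nat.div_eq_of_lt_le
      · omega
      · have : (M' + 1) * b' ^ 5 = M' * b' ^ 5 + b' ^ 5 := by ring
        omega
    apply hc.2
    rw [hdiv]
    refine ⟨hMM, ?_⟩
    have : (2 ^ k) ^ 3 - M' * b' ^ 5 = N' := by omega
    rw [this]
    exact r1

theorem omega4 {u v w : ℕ} (hu : 2 ≤ u) (hv : 2 ≤ v) (hw : 2 ≤ w) (huv : Nat.Coprime u v)
    (huw : Nat.Coprime u w) (hvw : Nat.Coprime v w)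
    (h : (u * (v * w)).primeFactors.card ≤ 3) : IsPrimePow w := by
  have h1 : Nat.Coprime u (v * w) := Nat.Coprime.mul_right huv huw
  rw [h1.primeFactors_mul, Finset.card_union_of_disjoint h1.disjoint_primeFactors,
    hvw.primeFactors_mul, Finset.card_union_of_disjoint hvw.disjoint_primeFactors] at h
  have k1 := Finset.card_pos.mpr (Nat.nonempty_primeFactors.mpr (show 1 < u by omega))
  have k2 := Finset.card_pos.mpr (Nat.nonempty_primeFactors.mpr (show 1 < v by omega))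
  have k3 := Finset.card_pos.mpr (Nat.nonempty_primeFactors.mpr (show 1 < w by omega))
  rw [isPrimePow_iff_card_primeFactors_eq_one]
  omega

theorem R.three (h : R b M N A σ) (hM2 : 2 ≤ M) (hN3 : N ≤ b ^ 3) (hMA : IsCoprime M A)
    (hA2 : 2 ≤ A) {y : ℤ} (hy : y = -(A * (b * M)))
    (ho : y.natAbs.primeFactors.card ≤ 3)
    (g1 : Int.gcd A (M * b ^ 2 - 1) ≠ 1) (g2 : Int.gcd A (M * b ^ 2 + 1) ≠ 1) : False := by
  have hb := h.hb
  have hy1 : y.natAbs = b.natAbs * (M.natAbs * A.natAbs) := by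
    rw [hy, Int.natAbs_neg, Int.natAbs_mul, Int.natAbs_mul]
    ring
  rw [hy1] at ho
  have hpp := omega4 (by omega) (by omega) (by omega) (Int.isCoprime_iff_gcd_eq_one.mp h.bM)
    (Int.isCoprime_iff_gcd_eq_one.mp h.bA) (Int.isCoprime_iff_gcd_eq_one.mp hMA) ho
  obtain ⟨p, k, hp, hk, hpk⟩ := (isPrimePow_nat_iff _).mp hpp
  have d1 : Int.gcd A (M * b ^ 2 - 1) ∣ p ^ k := by
    rw [hpk]
    exact Nat.gcd_dvd_left _ _
  have d2 : Int.gcd A (M * b ^ 2 + 1) ∣ p ^ k := by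
    rw [hpk]
    exact Nat.gcd_dvd_left _ _
  obtain ⟨i, hi, hgi⟩ := (Nat.dvd_prime_pow hp).mp d1
  obtain ⟨j, hj, hgj⟩ := (Nat.dvd_prime_pow hp).mp d2
  have hi0 : i ≠ 0 := by
    rintro rfl
    exact g1 (by rw [hgi, pow_zero])
  have hj0 : j ≠ 0 := by
    rintro rfl
    exact g2 (by rw [hgj, pow_zero])
  have e1 : ((p ^ i : ℕ) : ℤ) ∣ M * b ^ 2 - 1 := by
    rw [← hgi]; exact Int.gcd_dvd_right ..
  have e2 : ((p ^ j : ℕ) : ℤ) ∣ M * b ^ 2 + 1 := by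
    rw [← hgj]; exact Int.gcd_dvd_right ..
  have f1 : (p : ℤ) ∣ M * b ^ 2 - 1 :=
    (Int.natCast_dvd_natCast.mpr (dvd_pow_self p hi0)).trans e1
  have f2 : (p : ℤ) ∣ M * b ^ 2 + 1 :=
    (Int.natCast_dvd_natCast.mpr (dvd_pow_self p hj0)).trans e2
  have f3 : (p : ℤ) ∣ 2 := by
    have := dvd_sub f2 f1
    rwa [show M * b ^ 2 + 1 - (M * b ^ 2 - 1) = 2 by ring] at this
  have hp2 : p = 2 := by
    have h2 : p ∣ 2 := by exact_mod_cast f3
    exact (Nat.prime_dvd_prime_iff_eq hp Nat.prime_two).mp h2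
  subst hp2
  have hAk : A = 2 ^ k := by
    have h3 : ((2 ^ k : ℕ) : ℤ) = A := by
      rw [hpk, Int.natAbs_of_nonneg (by omega)]
    rw [← h3]
    push_cast
    rfl
  have hbd := h.bounds4
  rw [hgi, hgj] at hbd
  have hmin : i = 1 ∨ j = 1 := by
    by_contra hc
    push Not at hc
    have q1 : (4 : ℤ) ∣ M * b ^ 2 - 1 := by
      have : ((2 ^ 2 : ℕ) : ℤ) ∣ ((2 ^ i : ℕ) : ℤ) :=
        Int.natCast_dvd_natCast.mpr (pow_dvd_pow 2 (by omega))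
      exact this.trans e1
    have q2 : (4 : ℤ) ∣ M * b ^ 2 + 1 := by
      have : ((2 ^ 2 : ℕ) : ℤ) ∣ ((2 ^ j : ℕ) : ℤ) :=
        Int.natCast_dvd_natCast.mpr (pow_dvd_pow 2 (by omega))
      exact this.trans e2
    omega
  refine h.pow2 hM2 hN3 hAk ?_
  rcases hmin with hh | hh
  · rw [hh] at hbd
    norm_num at hbd
    linarith [hbd.1]
  · rw [hh] at hbd
    norm_num at hbd
    linarith [hbd.2]

end H98Q
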