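import Pool.Agent.H98Q.Three

namespace H98Q

variable {b M N : ℤ}

theorem P.threeY {y : ℤ} (h : P b M N) (hy : y = -((M * N - b) * (b * M)))
    (ho : y.natAbs.primeFactors.card ≤ 3) : b = 1 ∨ M = 1 := by
  by_contra hcon
  push Not at hcon
  have hb := h.hb
  have hM := h.hM
  have hb2 : 2 ≤ b := by omega
  have hM2 : 2 ≤ M := by omega
  have hR := h.toR hb2
  have hA := hR.hA
  have hbd := hR.bounds
  have g1 : Int.gcd (M * N - b) (M * b ^ 2 - 1) ≠ 1 := by
    intro hg
    have h2 := hbd.1.2 hg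
    rcases h.small h2.1 h2.2 with h3 | h3
    · exact hcon.1 h3
    · exact hcon.2 h3
  have g2 : Int.gcd (M * N - b) (M * b ^ 2 + 1) ≠ 1 := by
    intro hg
    have h2 := hbd.2.2 hg
    rcases h.small h2.1 h2.2 with h3 | h3
    · exact hcon.1 h3
    · exact hcon.2 h3
  have hA2 : 2 ≤ M * N - b := by
    by_contra hc
    have hA1 : M * N - b = 1 := by omega
    rw [hA1] at g1
    exact g1 (Int.one_gcd ..)
  exact hR.three hM2 h.Nle h.copM hA2 hy ho g1 g2

theorem Q.threeY {y : ℤ} (h : Q b M N) (hy : y = -((M * N + b) * (b * M)))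
    (ho : y.natAbs.primeFactors.card ≤ 3) : b = 1 ∨ M = 1 := by
  by_contra hcon
  push Not at hcon
  have hb := h.hb
  have hM := h.hM
  have hN := h.hN
  have hb2 : 2 ≤ b := by omega
  have hM2 : 2 ≤ M := by omega
  have hR := h.toR hb2
  have hA := hR.hA
  have hbd := hR.bounds
  have g1 : Int.gcd (M * N + b) (M * b ^ 2 - 1) ≠ 1 := by
    intro hg
    have h2 := hbd.1.2 hg
    rcases h.small h2.1 h2.2 with h3 | h3
    · exact hcon.1 h3
    · exact hcon.2 h3
  have g2 : Int.gcd (M * N + b) (M * b ^ 2 + 1) ≠ 1 := by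
    intro hg
    have h2 := hbd.2.2 hg
    rcases h.small h2.1 h2.2 with h3 | h3
    · exact hcon.1 h3
    · exact hcon.2 h3
  have hA2 : 2 ≤ M * N + b := by
    have : 1 ≤ M * N := by nlinarith
    omega
  exact hR.three hM2 h.Nle h.copM hA2 hy ho g1 g2

end H98Q
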